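import Pool.Agent.U919.OQ.Main
import Pool.Agent.U919.GE.Ex

/-!
# Polynomial rings
-/

set_option autoImplicit false

namespace Pool.Agent.U919.OQ

open Matrix Polynomial
open Pool.Agent.U919.GE (DegreeOver degreeOver_poly)

section domain

variable {ι : Type} [Fintype ι] {R : Type} [CommRing R] [IsDomain R]

omit [IsDomain R] in
theorem coeff_qf (Q : Matrix ι ι R) (w : ι → R[X]) (n : ℕ) (hw : ∀ i, (w i).natDegree ≤ n) :
    (qf (Q.map C) w).coeff (n + n) = qf Q (fun i => (w i).coeff n) := by
  unfold qf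
  rw [Polynomial.finsetSum_coeff]
  refine Finset.sum_congr rfl fun i _ => ?_
  rw [Polynomial.finsetSum_coeff]
  refine Finset.sum_congr rfl fun k _ => ?_
  rw [Matrix.map_apply, mul_assoc, Polynomial.coeff_C_mul, Polynomial.coeff_mul_add_eq_of_natDegree_le
    (hw i) (hw k), mul_assoc]

theorem qf_deg_le (Q : Matrix ι ι R) (w : ι → R[X]) :
    (qf (Q.map C) w).natDegree ≤ 2 * dv natDegree w := by
  have h := degreeOver_poly R
  unfold qf
  refine d_sum_le h _ _ _ fun i _ => d_sum_le h _ _ _ fun k _ => ?_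
  have h1 := d_mul_le' h ((Q.map C) i k * w i) (w k)
  have h2 := d_mul_le' h ((Q.map C) i k) (w i)
  have h3 : ((Q.map C) i k).natDegree = 0 := by
    rw [Matrix.map_apply, natDegree_C]
  have h4 := le_dv (d := natDegree) w i
  have h5 := le_dv (d := natDegree) w k
  omega

theorem aniso_poly (Q : Matrix ι ι R) (hq : ∀ w : ι → R, qf Q w = 0 → w = 0) :
    Aniso (C : R →+* R[X]) natDegree Q := by
  have key : ∀ w : ι → R[X], (fun i => (w i).coeff (dv natDegree w)) = (0 : ι → R) → w = 0 := by
    intro w h0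
    have h1 : ∀ i, (w i).coeff (dv natDegree w) = 0 := fun i => congrFun h0 i
    rcases Nat.eq_zero_or_pos (dv natDegree w) with h2 | h2
    · funext i
      have h3 := le_dv (d := natDegree) w i
      have h4 : (w i).natDegree = 0 := by omega
      rw [Polynomial.eq_C_of_natDegree_eq_zero h4]
      have h5 := h1 i
      rw [h2] at h5
      rw [h5, C_0]
      rfl
    · obtain ⟨a, ha⟩ := dv_ex (d := natDegree) w h2
      have h3 := h1 a
      rw [← ha] at h3
      have h4 : w a = 0 := Polynomial.leadingCoeff_eq_zero.1 h3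
      rw [h4, natDegree_zero] at ha
      omega
  refine ⟨?_, ?_⟩
  · intro w
    apply le_antisymm (qf_deg_le Q w)
    rcases Nat.eq_zero_or_pos (dv natDegree w) with h2 | h2
    · rw [h2]
      exact Nat.zero_le _
    · apply Polynomial.le_natDegree_of_ne_zero
      rw [two_mul, coeff_qf Q w _ (fun i => le_dv w i)]
      intro h3
      have h4 := key w (hq _ h3)
      rw [h4] at h2
      have h5 : dv natDegree (0 : ι → R[X]) = 0 := Nat.le_zero.1 (dv_le fun i => by simp)
      omega
  · intro w h0
    apply key w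
    apply hq
    rw [← coeff_qf Q w _ (fun i => le_dv w i), h0, coeff_zero]

end domain

section field

variable {ι : Type} [Fintype ι] [DecidableEq ι] {k : Type} [Field k]

/-- the exchange of the two coordinates of the hyperbolic plane -/
def swL (ι S : Type) [CommRing S] : Vc ι S →ₗ[S] Vc ι S where
  toFun v := Sum.elim ![v (Sum.inl 1), v (Sum.inl 0)] (fun i => v (Sum.inr i))
  map_add' v v' := by
    funext a
    rcases a with a | i
    · fin_cases a <;> simp
    · simp
  map_smul' c v := by
    funext a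
    rcases a with a | i
    · fin_cases a <;> simp
    · simp

omit [Fintype ι] [DecidableEq ι] in
theorem swL_sw {S : Type} [CommRing S] (v : Vc ι S) : swL ι S (swL ι S v) = v := by
  apply ext_v <;> rfl

/-- the exchange as a matrix -/
def sw (ι S : Type) [Fintype ι] [DecidableEq ι] [CommRing S] : Gm ι S where
  val := LinearMap.toMatrix' (swL ι S)
  inv := LinearMap.toMatrix' (swL ι S)
  val_inv := by
    rw [← LinearMap.toMatrix'_comp]
    have h : (swL ι S).comp (swL ι S) = LinearMap.id := LinearMap.ext fun v => swL_sw v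
    rw [h, LinearMap.toMatrix'_id]
  inv_val := by
    rw [← LinearMap.toMatrix'_comp]
    have h : (swL ι S).comp (swL ι S) = LinearMap.id := LinearMap.ext fun v => swL_sw v
    rw [h, LinearMap.toMatrix'_id]

theorem sw_mulVec {S : Type} [CommRing S] (v : Vc ι S) : (sw ι S).val *ᵥ v = swL ι S v := by
  show LinearMap.toMatrix' (swL ι S) *ᵥ v = _
  rw [LinearMap.toMatrix'_mulVec]

theorem sw_mem {S : Type} [CommRing S] (Q : Matrix ι ι S) : sw ι S ∈ og Q := by
  intro v
  rw [sw_mulVec]
  unfold QQ
  have h1 : swL ι S v (Sum.inl 0) = v (Sum.inl 1) := rfl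
  have h2 : swL ι S v (Sum.inl 1) = v (Sum.inl 0) := rfl
  have h3 : rt (swL ι S v) = rt v := rfl
  rw [h1, h2, h3]
  ring

theorem mp_sw {S S' : Type} [CommRing S] [CommRing S'] (j : S →+* S') : mp j (sw ι S) = sw ι S' := by
  apply Units.ext
  ext a b
  rw [mp_apply]
  show j (LinearMap.toMatrix' (swL ι S) a b) = LinearMap.toMatrix' (swL ι S') a b
  rw [LinearMap.toMatrix'_apply, LinearMap.toMatrix'_apply]
  have h1 : (Pi.single b 1 : Vc ι S') = fun a => j ((Pi.single b 1 : Vc ι S) a) := by
    funext c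
    by_cases hc : c = b
    · subst hc
      simp
    · simp [Pi.single_eq_of_ne hc]
  rw [h1]
  generalize (Pi.single b 1 : Vc ι S) = v
  rcases a with a | i
  · fin_cases a <;> rfl
  · rfl

/-- the elements of the group of isometries which fix the line of `e` -/
theorem isB_of {Q : Matrix ι ι k} (hq : ∀ w : ι → k, qf Q w = 0 → w = 0) {g : Gm ι k[X]}
    (hg : g ∈ og (Q.map C)) (hf : g.val (Sum.inl 1) (Sum.inl 0) = 0) : IsB natDegree g := by
  have h := degreeOver_poly k
  have hQ := aniso_poly Q hq
  have hz : ∀ a, a ≠ Sum.inl 0 → g.val a (Sum.inl 0) = 0 := by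
    have h1 := hg (bs ι k[X] (Sum.inl 0))
    rw [col_eq, QQ_e] at h1
    have h2 : rt (col g (Sum.inl 0)) = 0 := by
      apply hQ.ne
      unfold QQ at h1
      have e1 : col g (Sum.inl 0) (Sum.inl 1) = 0 := hf
      rwa [e1, mul_zero, zero_add] at h1
    intro a ha
    rcases a with a | i
    · fin_cases a
      · exact absurd rfl ha
      · exact hf
    · exact congrFun h2 i
  have e1 : (g⁻¹).val (Sum.inl 0) (Sum.inl 0) * g.val (Sum.inl 0) (Sum.inl 0) = 1 := by
    have h1 : (g⁻¹ * g).val (Sum.inl 0) (Sum.inl 0) = (1 : k[X]) := by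
      rw [inv_mul_cancel, Units.val_one, Matrix.one_apply_eq]
    rw [← h1, Units.val_mul, Matrix.mul_apply, Finset.sum_eq_single (Sum.inl 0)]
    · intro b _ hb
      rw [hz b hb, mul_zero]
    · intro hn
      exact absurd (Finset.mem_univ _) hn
  have hu : IsUnit (g.val (Sum.inl 0) (Sum.inl 0)) := IsUnit.of_mul_eq_one_right _ e1
  refine ⟨hz, Polynomial.natDegree_eq_zero_of_isUnit hu, ?_⟩
  intro i l
  have h1 := og_BB hg (bs ι k[X] (Sum.inl 0)) (bs ι k[X] (Sum.inr l))
  rw [col_eq, col_eq, BB_ue hz, BB_comm, BB_e, bs_k1] at h1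
  have h2 : col g (Sum.inr l) (Sum.inl 1) = 0 := mul_z h h1 hu.ne_zero
  have h3 := hg (bs ι k[X] (Sum.inr l))
  rw [col_eq] at h3
  have h4 : qf (Q.map C) (rt (col g (Sum.inr l))) = QQ (Q.map C) (bs ι k[X] (Sum.inr l)) := by
    rw [← h3]
    unfold QQ
    rw [h2, mul_zero, zero_add]
  have h5 : (bs ι k[X] (Sum.inr l)) = fun a => C (bs ι k (Sum.inr l) a) := by
    funext a
    unfold bs
    by_cases hak : a = Sum.inr l
    · rw [hak, Pi.single_eq_same, Pi.single_eq_same, map_one]
    · rw [Pi.single_eq_of_ne hak, Pi.single_eq_of_ne hak, map_zero]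
  rw [h5, map_QQ] at h4
  have h6 := zero_of_dv h (Q := Q) (rt (col g (Sum.inr l))) hQ (by rw [h4, natDegree_C])
  have h7 := le_dv (d := natDegree) (rt (col g (Sum.inr l))) i
  rw [h6] at h7
  exact Nat.le_zero.1 h7

/-- over a field, the group of isometries over the polynomial ring is generated by the isometries over
the field and the Siegel transformations -/
theorem gen_field {Q : Matrix ι ι k} (hq : ∀ w : ι → k, qf Q w = 0 → w = 0) :
    genS (C : k →+* k[X]) Q (og Q) = og (Q.map C) := by
  have h := degreeOver_poly k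
  have hQ := aniso_poly Q hq
  apply le_antisymm (genS_le_og _ _)
  have key : ∀ n : ℕ, ∀ g ∈ og (Q.map C), g.val (Sum.inl 1) (Sum.inl 0) ≠ 0 →
      (g.val (Sum.inl 1) (Sum.inl 0)).natDegree ≤ n → g ∈ genS (C : k →+* k[X]) Q (og Q) := by
    have base : ∀ g ∈ og (Q.map C), g.val (Sum.inl 1) (Sum.inl 0) = 0 →
        g ∈ genS (C : k →+* k[X]) Q (og Q) := by
      intro g hg hf
      exact Bg_le h hQ ⟨g, hg⟩ (isB_of hq hg hf)
    intro n
    induction n using Nat.strong_induction_on with
    | _ n ih =>
      intro g hg hne hdeg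
      obtain ⟨y, hy⟩ : ∃ y, y = g.val (Sum.inl 1) (Sum.inl 0) := ⟨_, rfl⟩
      obtain ⟨p, hp⟩ : ∃ p, p = col g (Sum.inl 0) := ⟨_, rfl⟩
      have hp1 : p (Sum.inl 1) = y := by rw [hp, hy]; rfl
      rw [← hy] at hne hdeg
      obtain ⟨w, hw⟩ : ∃ w : ι → k[X], w = fun i => - (p (Sum.inr i) / y) := ⟨_, rfl⟩
      obtain ⟨g', hg'⟩ : ∃ g', g' = sw ι k[X] * (sg (Q.map C) w * g) := ⟨_, rfl⟩
      have hsw : sw ι k[X] ∈ genS (C : k →+* k[X]) Q (og Q) :=
        Subgroup.mem_sup_left ⟨sw ι k, sw_mem Q, mp_sw C⟩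
      have hsg : sg (Q.map C) w ∈ genS (C : k →+* k[X]) Q (og Q) :=
        Subgroup.mem_sup_right (Subgroup.subset_closure ⟨w, rfl⟩)
      have hg'og : g' ∈ og (Q.map C) := by
        rw [hg']
        exact mul_mem (sw_mem _) (mul_mem (sg_mem _ _) hg)
      have hback : g' ∈ genS (C : k →+* k[X]) Q (og Q) → g ∈ genS (C : k →+* k[X]) Q (og Q) := by
        intro h1
        have h2 : g = (sg (Q.map C) w)⁻¹ * ((sw ι k[X])⁻¹ * g') := by
          rw [hg']
          group
        rw [h2]
        exact mul_mem (inv_mem hsg) (mul_mem (inv_mem hsw) h1)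
      apply hback
      -- the first column of the new matrix
      have hcol : col g' (Sum.inl 0) = swL ι k[X] (sgL (Q.map C) w p) := by
        rw [hg', col_mul, col_mul, sw_mulVec, sg_mulVec, ← hp]
      have hx' : g'.val (Sum.inl 1) (Sum.inl 0) = sgL (Q.map C) w p (Sum.inl 0) := by
        show col g' (Sum.inl 0) (Sum.inl 1) = _
        rw [hcol]
        rfl
      have hz' : ∀ i, rt (sgL (Q.map C) w p) i = p (Sum.inr i) % y := by
        intro i
        rw [sgL_r, hp1, hw]
        show p (Sum.inr i) + y * -(p (Sum.inr i) / y) = _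
        have h1 := EuclideanDomain.div_add_mod (p (Sum.inr i)) y
        linear_combination -h1
      have hiso : sgL (Q.map C) w p (Sum.inl 0) * y + qf (Q.map C) (rt (sgL (Q.map C) w p)) = 0 := by
        have h1 : QQ (Q.map C) p = 0 := by
          rw [hp, ← col_eq, hg, QQ_e]
        have h2 := sg_mem (Q.map C) w p
        rw [sg_mulVec, h1] at h2
        unfold QQ at h2
        rwa [sgL_1, hp1] at h2
      by_cases h0 : g'.val (Sum.inl 1) (Sum.inl 0) = 0
      · exact base g' hg'og h0
      · obtain ⟨x', hx''⟩ : ∃ x', x' = sgL (Q.map C) w p (Sum.inl 0) := ⟨_, rfl⟩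
        rw [hx', ← hx''] at h0
        rw [← hx''] at hiso
        -- the degree of the new coordinate
        have hd1 : x'.natDegree + y.natDegree = 2 * dv natDegree (rt (sgL (Q.map C) w p)) := by
          rw [← hQ.deg, ← Polynomial.natDegree_mul h0 hne, ← Polynomial.natDegree_neg (x' * y)]
          congr 1
          linear_combination -hiso
        have hd2 : ∀ i, (rt (sgL (Q.map C) w p) i) ≠ 0 →
            (rt (sgL (Q.map C) w p) i).natDegree < y.natDegree := by
          intro i hi
          rw [hz'] at hi ⊢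
          exact Polynomial.natDegree_lt_natDegree hi (Polynomial.degree_mod_lt _ hne)
        have hnz : ∃ i, rt (sgL (Q.map C) w p) i ≠ 0 := by
          by_contra hcon
          push Not at hcon
          have h3 : rt (sgL (Q.map C) w p) = 0 := funext hcon
          rw [h3, qf_zero, add_zero] at hiso
          exact (mul_ne_zero h0 hne) hiso
        obtain ⟨i0, hi0⟩ := hnz
        have hy0 : 0 < y.natDegree := lt_of_le_of_lt (Nat.zero_le _) (hd2 i0 hi0)
        have hd3 : dv natDegree (rt (sgL (Q.map C) w p)) < y.natDegree := by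
          have h4 : dv natDegree (rt (sgL (Q.map C) w p)) ≤ y.natDegree - 1 := by
            apply dv_le
            intro i
            by_cases hi : rt (sgL (Q.map C) w p) i = 0
            · rw [hi, natDegree_zero]
              exact Nat.zero_le _
            · have := hd2 i hi
              omega
          omega
        have hlt : x'.natDegree < n := by omega
        exact ih x'.natDegree hlt g' hg'og (by rw [hx', ← hx'']; exact h0)
          (by rw [hx', ← hx''])
  intro g hg
  by_cases h0 : g.val (Sum.inl 1) (Sum.inl 0) = 0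
  · exact Bg_le h hQ ⟨g, hg⟩ (isB_of hq hg h0)
  · exact key _ g hg h0 le_rfl

end field

end Pool.Agent.U919.OQ
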