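import Pool.Agent.U919.OQ.Main
import Pool.Agent.U919.GE.Law

/-!
# Statements on groups of isometries of the sum of a hyperbolic plane and an anisotropic form
-/

set_option autoImplicit false

namespace Pool.Agent.U919.OQ.Law

open Pool.Agent.U919.GE (DegreeOver)
open Pool.Agent.U919.GE.Law (Cl)

/-- the group `A` of matrices over `R` is in the class `C` -/
def InG (C : ∀ (G : Type) [Group G], Prop) {ι R : Type} [Fintype ι] [DecidableEq ι] [CommRing R]
    (A : Subgroup (Gm ι R)) : Prop := C A

/-- the image of the group `H` under the homomorphism of the groups of matrices given by `ε` -/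
def img {ι R S : Type} [Fintype ι] [DecidableEq ι] [CommRing R] [CommRing S] (ε : S →+* R)
    (H : Subgroup (Gm ι S)) : Subgroup (Gm ι R) := H.map (mp ε)

/-- a group `H` of matrices over `S` contained in the group generated by the isometries over `R` and the
Siegel transformations over `S` is in `C` if its image under the retraction `ε` is, in particular if this
image is trivial -/
def Subgroups (C : ∀ (G : Type) [Group G], Prop) : Prop :=
  ∀ (ι R S : Type) [Fintype ι] [DecidableEq ι] [CommRing R] [CommRing S] (j : R →+* S) (ε : S →+* R)
    (d : S → ℕ), DegreeOver j ε d → ∀ Q : Matrix ι ι R, Aniso j d Q →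
      ∀ H : Subgroup (Gm ι S), H ≤ genS j Q (og Q) → InG C (img ε H) ∨ img ε H = ⊥ → InG C H

/-- for every group `A` of isometries over `R`: the group generated by `A` and the Siegel transformations
over `R` is in `C` iff the one generated by `A` and the Siegel transformations over `S` is -/
def Extensions (C : ∀ (G : Type) [Group G], Prop) : Prop :=
  ∀ (ι R S : Type) [Fintype ι] [DecidableEq ι] [CommRing R] [CommRing S] (j : R →+* S) (ε : S →+* R)
    (d : S → ℕ), DegreeOver j ε d → ∀ Q : Matrix ι ι R, Aniso j d Q →
      ∀ A : Subgroup (Gm ι R), A ≤ og Q → (InG C (addS Q A) ↔ InG C (genS j Q A))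

/-- the form `Q` is anisotropic over `R` -/
def AnisoR {ι R : Type} [Fintype ι] [CommRing R] (Q : Matrix ι ι R) : Prop :=
  ∀ w : ι → R, qf Q w = 0 → w = 0

/-- the quadratic form with the coefficients of `Q` over the polynomial ring -/
noncomputable def pol {ι R : Type} [CommRing R] (Q : Matrix ι ι R) : Matrix ι ι (Polynomial R) :=
  Q.map Polynomial.C

/-- polynomial rings `R[X]` over domains `R` and forms anisotropic over `R` are an example -/
def Polynomials : Prop :=
  ∀ (ι R : Type) [Fintype ι] [CommRing R] [IsDomain R] (Q : Matrix ι ι R), AnisoR Q →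
    DegreeOver (Polynomial.C : R →+* Polynomial R) Polynomial.constantCoeff Polynomial.natDegree ∧
      Aniso (Polynomial.C : R →+* Polynomial R) Polynomial.natDegree Q

/-- the group of all isometries over the polynomial ring over a field: its subgroups are in `C` if their
images at `X = 0` are, in particular if these are trivial; it is in `C` iff the group of the isometries
over the field is, and it is in `C` if the field is finite -/
def Fields (C : ∀ (G : Type) [Group G], Prop) : Prop :=
  ∀ (ι k : Type) [Fintype ι] [DecidableEq ι] [Field k] (Q : Matrix ι ι k), AnisoR Q →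
    (∀ H : Subgroup (Gm ι (Polynomial k)), H ≤ og (pol Q) →
      InG C (img Polynomial.constantCoeff H) ∨ img Polynomial.constantCoeff H = ⊥ → InG C H) ∧
    (InG C (og Q) ↔ InG C (og (pol Q))) ∧ (Finite k → InG C (og (pol Q)))

end Pool.Agent.U919.OQ.Law
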