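import Pool.Agent.U919.GE.Mat

/-!
# Isometries of the sum of a hyperbolic plane and a quadratic form

The form `x y + q(z)` on `S² × S^ι`, where `q(z) = ∑ Q i k * z i * z k`, its group of isometries and the
Siegel transformations.
-/

set_option autoImplicit false

namespace Pool.Agent.U919.OQ

open Matrix

section forms

variable {ι : Type} [Fintype ι] {S : Type} [CommRing S]

/-- the quadratic form with the coefficients `Q i k` -/
def qf (Q : Matrix ι ι S) (w : ι → S) : S := ∑ i, ∑ k, Q i k * w i * w k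

/-- its polar form `q(w + z) - q(w) - q(z)` -/
def bf (Q : Matrix ι ι S) (w z : ι → S) : S := ∑ i, ∑ k, Q i k * (w i * z k + z i * w k)

theorem qf_add (Q : Matrix ι ι S) (w z : ι → S) : qf Q (w + z) = qf Q w + qf Q z + bf Q w z := by
  unfold qf bf
  simp only [← Finset.sum_add_distrib, Pi.add_apply]
  refine Finset.sum_congr rfl fun i _ => Finset.sum_congr rfl fun k _ => ?_
  ring

theorem qf_smul (Q : Matrix ι ι S) (a : S) (w : ι → S) : qf Q (a • w) = a ^ 2 * qf Q w := by
  unfold qf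
  simp only [Finset.mul_sum, Pi.smul_apply, smul_eq_mul]
  refine Finset.sum_congr rfl fun i _ => Finset.sum_congr rfl fun k _ => ?_
  ring

theorem qf_neg (Q : Matrix ι ι S) (w : ι → S) : qf Q (-w) = qf Q w := by
  have h := qf_smul Q (-1) w
  rw [neg_one_smul] at h
  rw [h]
  ring

theorem qf_zero (Q : Matrix ι ι S) : qf Q 0 = 0 := by
  unfold qf
  simp

theorem bf_comm (Q : Matrix ι ι S) (w z : ι → S) : bf Q w z = bf Q z w := by
  unfold bf
  refine Finset.sum_congr rfl fun i _ => Finset.sum_congr rfl fun k _ => ?_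
  ring

theorem bf_add (Q : Matrix ι ι S) (w z z' : ι → S) : bf Q w (z + z') = bf Q w z + bf Q w z' := by
  unfold bf
  simp only [← Finset.sum_add_distrib, Pi.add_apply]
  refine Finset.sum_congr rfl fun i _ => Finset.sum_congr rfl fun k _ => ?_
  ring

theorem bf_smul (Q : Matrix ι ι S) (a : S) (w z : ι → S) : bf Q w (a • z) = a * bf Q w z := by
  unfold bf
  simp only [Finset.mul_sum, Pi.smul_apply, smul_eq_mul]
  refine Finset.sum_congr rfl fun i _ => Finset.sum_congr rfl fun k _ => ?_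
  ring

theorem bf_neg (Q : Matrix ι ι S) (w z : ι → S) : bf Q w (-z) = - bf Q w z := by
  have h := bf_smul Q (-1) w z
  rw [neg_one_smul] at h
  rw [h]
  ring

theorem bf_zero (Q : Matrix ι ι S) (w : ι → S) : bf Q w 0 = 0 := by
  unfold bf
  simp

theorem add_bf (Q : Matrix ι ι S) (w w' z : ι → S) : bf Q (w + w') z = bf Q w z + bf Q w' z := by
  rw [bf_comm, bf_add, bf_comm Q z, bf_comm Q z]

theorem smul_bf (Q : Matrix ι ι S) (a : S) (w z : ι → S) : bf Q (a • w) z = a * bf Q w z := by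
  rw [bf_comm, bf_smul, bf_comm Q z]

theorem bf_self (Q : Matrix ι ι S) (w : ι → S) : bf Q w w = 2 * qf Q w := by
  unfold bf qf
  rw [Finset.mul_sum]
  refine Finset.sum_congr rfl fun i _ => ?_
  rw [Finset.mul_sum]
  refine Finset.sum_congr rfl fun k _ => ?_
  ring

theorem map_qf {S' : Type} [CommRing S'] (j : S →+* S') (Q : Matrix ι ι S) (w : ι → S) :
    qf (Q.map j) (fun i => j (w i)) = j (qf Q w) := by
  unfold qf
  simp only [map_sum, map_mul, Matrix.map_apply]

theorem map_bf {S' : Type} [CommRing S'] (j : S →+* S') (Q : Matrix ι ι S) (w z : ι → S) :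
    bf (Q.map j) (fun i => j (w i)) (fun i => j (z i)) = j (bf Q w z) := by
  unfold bf
  simp only [map_sum, map_mul, map_add, Matrix.map_apply]

/-- the vectors: the coordinates at `inl 0`, `inl 1` are the ones of the hyperbolic plane -/
abbrev Vc (ι S : Type) : Type := Fin 2 ⊕ ι → S

/-- the part of the vector in `S^ι` -/
def rt (v : Vc ι S) : ι → S := fun i => v (Sum.inr i)

/-- the quadratic form `x y + q(z)` -/
def QQ (Q : Matrix ι ι S) (v : Vc ι S) : S := v (Sum.inl 0) * v (Sum.inl 1) + qf Q (rt v)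

/-- its polar form -/
def BB (Q : Matrix ι ι S) (v w : Vc ι S) : S :=
  v (Sum.inl 0) * w (Sum.inl 1) + v (Sum.inl 1) * w (Sum.inl 0) + bf Q (rt v) (rt w)

omit [Fintype ι] in
theorem rt_add (v w : Vc ι S) : rt (v + w) = rt v + rt w := rfl

omit [Fintype ι] in
theorem rt_smul (a : S) (v : Vc ι S) : rt (a • v) = a • rt v := rfl

theorem QQ_add (Q : Matrix ι ι S) (v w : Vc ι S) : QQ Q (v + w) = QQ Q v + QQ Q w + BB Q v w := by
  unfold QQ BB
  rw [rt_add, qf_add]
  simp only [Pi.add_apply]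
  ring

theorem BB_comm (Q : Matrix ι ι S) (v w : Vc ι S) : BB Q v w = BB Q w v := by
  unfold BB
  rw [bf_comm]
  ring

theorem BB_add (Q : Matrix ι ι S) (v w w' : Vc ι S) : BB Q v (w + w') = BB Q v w + BB Q v w' := by
  unfold BB
  rw [rt_add, bf_add]
  simp only [Pi.add_apply]
  ring

theorem BB_smul (Q : Matrix ι ι S) (a : S) (v w : Vc ι S) : BB Q v (a • w) = a * BB Q v w := by
  unfold BB
  rw [rt_smul, bf_smul]
  simp only [Pi.smul_apply, smul_eq_mul]
  ring

theorem QQ_smul (Q : Matrix ι ι S) (a : S) (v : Vc ι S) : QQ Q (a • v) = a ^ 2 * QQ Q v := by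
  unfold QQ
  rw [rt_smul, qf_smul]
  simp only [Pi.smul_apply, smul_eq_mul]
  ring

theorem map_QQ {S' : Type} [CommRing S'] (j : S →+* S') (Q : Matrix ι ι S) (v : Vc ι S) :
    QQ (Q.map j) (fun a => j (v a)) = j (QQ Q v) := by
  unfold QQ
  rw [map_add, map_mul, ← map_qf]
  rfl

end forms

section groups

variable {ι : Type} [Fintype ι] [DecidableEq ι]

/-- the group of the invertible matrices -/
abbrev Gm (ι S : Type) [Fintype ι] [DecidableEq ι] [CommRing S] : Type :=
  (Matrix (Fin 2 ⊕ ι) (Fin 2 ⊕ ι) S)ˣ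

variable {S : Type} [CommRing S]

/-- the homomorphism of the groups of matrices given by a homomorphism of rings -/
def mp {S' : Type} [CommRing S'] (j : S →+* S') : Gm ι S →* Gm ι S' :=
  Units.map (j.mapMatrix : _ →+* _).toMonoidHom

theorem mp_apply {S' : Type} [CommRing S'] (j : S →+* S') (g : Gm ι S) (a b : Fin 2 ⊕ ι) :
    (mp j g).val a b = j (g.val a b) := rfl

theorem mp_mulVec {S' : Type} [CommRing S'] (j : S →+* S') (g : Gm ι S) (v : Vc ι S) :
    (mp j g).val *ᵥ (fun a => j (v a)) = fun a => j ((g.val *ᵥ v) a) := by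
  funext a
  simp only [Matrix.mulVec, dotProduct, map_sum, map_mul, mp_apply]

/-- the group of the isometries -/
def og (Q : Matrix ι ι S) : Subgroup (Gm ι S) where
  carrier := {g | ∀ v : Vc ι S, QQ Q (g.val *ᵥ v) = QQ Q v}
  one_mem' := fun v => by rw [Units.val_one, Matrix.one_mulVec]
  mul_mem' := by
    intro a b ha hb v
    rw [Units.val_mul, ← Matrix.mulVec_mulVec, ha, hb]
  inv_mem' := by
    intro a ha v
    have h := ha ((a⁻¹).val *ᵥ v)
    rw [Matrix.mulVec_mulVec, ← Units.val_mul, mul_inv_cancel, Units.val_one,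
      Matrix.one_mulVec] at h
    exact h.symm

theorem og_BB {Q : Matrix ι ι S} {g : Gm ι S} (hg : g ∈ og Q) (v w : Vc ι S) :
    BB Q (g.val *ᵥ v) (g.val *ᵥ w) = BB Q v w := by
  have h1 := hg (v + w)
  rw [Matrix.mulVec_add, QQ_add, QQ_add, hg v, hg w] at h1
  exact add_left_cancel h1

/-- the linear map `(x, y, z) ↦ (x - b(z, w) - q(w) y, y, z + y w)` -/
def sgL (Q : Matrix ι ι S) (w : ι → S) : Vc ι S →ₗ[S] Vc ι S where
  toFun v := Sum.elim ![v (Sum.inl 0) - bf Q (rt v) w - qf Q w * v (Sum.inl 1), v (Sum.inl 1)]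
    (fun i => v (Sum.inr i) + v (Sum.inl 1) * w i)
  map_add' v v' := by
    funext a
    rcases a with a | i
    · fin_cases a
      · simp only [Fin.zero_eta, Sum.elim_inl, Matrix.cons_val_zero, Pi.add_apply, rt_add, add_bf]
        ring
      · simp
    · simp only [Sum.elim_inr, Pi.add_apply]
      ring
  map_smul' c v := by
    funext a
    rcases a with a | i
    · fin_cases a
      · simp only [Fin.zero_eta, Sum.elim_inl, Matrix.cons_val_zero, Pi.smul_apply, rt_smul, smul_bf,
          smul_eq_mul, RingHom.id_apply]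
        ring
      · simp
    · simp only [Sum.elim_inr, Pi.smul_apply, smul_eq_mul, RingHom.id_apply]
      ring

omit [DecidableEq ι] in
theorem sgL_0 (Q : Matrix ι ι S) (w : ι → S) (v : Vc ι S) : sgL Q w v (Sum.inl 0) =
    v (Sum.inl 0) - bf Q (rt v) w - qf Q w * v (Sum.inl 1) := rfl

omit [DecidableEq ι] in
theorem sgL_1 (Q : Matrix ι ι S) (w : ι → S) (v : Vc ι S) : sgL Q w v (Sum.inl 1) = v (Sum.inl 1) := rfl

omit [DecidableEq ι] in
theorem sgL_r (Q : Matrix ι ι S) (w : ι → S) (v : Vc ι S) :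
    rt (sgL Q w v) = rt v + v (Sum.inl 1) • w := rfl

omit [Fintype ι] [DecidableEq ι] [CommRing S] in
theorem ext_v {v w : Vc ι S} (h0 : v (Sum.inl 0) = w (Sum.inl 0)) (h1 : v (Sum.inl 1) = w (Sum.inl 1))
    (hr : rt v = rt w) : v = w := by
  funext a
  rcases a with a | i
  · fin_cases a
    · exact h0
    · exact h1
  · exact congrFun hr i

omit [DecidableEq ι] in
theorem sgL_add (Q : Matrix ι ι S) (w w' : ι → S) (v : Vc ι S) :
    sgL Q w (sgL Q w' v) = sgL Q (w + w') v := by
  apply ext_v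
  · rw [sgL_0, sgL_1, sgL_r, sgL_0, sgL_0, add_bf, smul_bf, bf_add, qf_add, bf_comm Q w w']
    ring
  · rfl
  · rw [sgL_r, sgL_r, sgL_1, sgL_r, smul_add, add_assoc, add_comm (v (Sum.inl 1) • w')]

omit [DecidableEq ι] in
theorem sgL_zero (Q : Matrix ι ι S) (v : Vc ι S) : sgL Q 0 v = v := by
  apply ext_v
  · rw [sgL_0, bf_zero, qf_zero]
    ring
  · rfl
  · rw [sgL_r, smul_zero, add_zero]

/-- the matrix of the linear map `sgL` -/
def sgM (Q : Matrix ι ι S) (w : ι → S) : Matrix (Fin 2 ⊕ ι) (Fin 2 ⊕ ι) S :=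
  LinearMap.toMatrix' (sgL Q w)

theorem sgM_mul (Q : Matrix ι ι S) (w w' : ι → S) (hw : w + w' = 0) : sgM Q w * sgM Q w' = 1 := by
  unfold sgM
  rw [← LinearMap.toMatrix'_comp]
  have h : (sgL Q w).comp (sgL Q w') = LinearMap.id := by
    apply LinearMap.ext
    intro v
    rw [LinearMap.comp_apply, sgL_add, hw, sgL_zero, LinearMap.id_apply]
  rw [h, LinearMap.toMatrix'_id]

/-- the Siegel transformation `(x, y, z) ↦ (x - b(z, w) - q(w) y, y, z + y w)` -/
def sg (Q : Matrix ι ι S) (w : ι → S) : Gm ι S :=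
  ⟨sgM Q w, sgM Q (-w), sgM_mul Q w (-w) (add_neg_cancel w), sgM_mul Q (-w) w (neg_add_cancel w)⟩

theorem sg_mulVec (Q : Matrix ι ι S) (w : ι → S) (v : Vc ι S) : (sg Q w).val *ᵥ v = sgL Q w v := by
  show LinearMap.toMatrix' (sgL Q w) *ᵥ v = _
  rw [LinearMap.toMatrix'_mulVec]

theorem ext_g {g h : Gm ι S} (H : ∀ v : Vc ι S, g.val *ᵥ v = h.val *ᵥ v) : g = h := by
  apply Units.ext
  ext a b
  have h1 := congrFun (H (Pi.single b 1)) a
  simpa using h1

theorem sg_add (Q : Matrix ι ι S) (w w' : ι → S) : sg Q w * sg Q w' = sg Q (w + w') := by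
  apply ext_g
  intro v
  rw [Units.val_mul, ← Matrix.mulVec_mulVec, sg_mulVec, sg_mulVec, sg_mulVec, sgL_add]

theorem sg_zero (Q : Matrix ι ι S) : sg Q 0 = 1 := by
  apply ext_g
  intro v
  rw [sg_mulVec, sgL_zero, Units.val_one, Matrix.one_mulVec]

theorem sg_mem (Q : Matrix ι ι S) (w : ι → S) : sg Q w ∈ og Q := by
  intro v
  rw [sg_mulVec]
  unfold QQ
  rw [sgL_0, sgL_1, sgL_r, qf_add, qf_smul, bf_smul]
  ring

theorem mp_sg {S' : Type} [CommRing S'] (j : S →+* S') (Q : Matrix ι ι S) (w : ι → S) :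
    mp j (sg Q w) = sg (Q.map j) (fun i => j (w i)) := by
  apply Units.ext
  ext a b
  rw [mp_apply]
  show j (LinearMap.toMatrix' (sgL Q w) a b) = LinearMap.toMatrix' (sgL (Q.map j) (fun i => j (w i))) a b
  rw [LinearMap.toMatrix'_apply, LinearMap.toMatrix'_apply]
  have h1 : (Pi.single b 1 : Vc ι S') = fun a => j ((Pi.single b 1 : Vc ι S) a) := by
    funext c
    by_cases hc : c = b
    · subst hc
      simp
    · simp [Pi.single_eq_of_ne hc]
  rw [h1]
  generalize (Pi.single b 1 : Vc ι S) = v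
  rcases a with a | i
  · fin_cases a
    · show j (sgL Q w v (Sum.inl 0)) = sgL (Q.map j) (fun i => j (w i)) (fun a => j (v a)) (Sum.inl 0)
      rw [sgL_0, sgL_0, map_sub, map_sub, map_mul, ← map_bf, ← map_qf]
      rfl
    · rfl
  · show j (v (Sum.inr i) + v (Sum.inl 1) * w i) = _
    rw [map_add, map_mul]
    rfl

theorem alt_zero {κ : Type} [Fintype κ] [DecidableEq κ] (M : Matrix κ κ S) (h0 : ∀ a, M a a = 0)
    (h1 : ∀ a b, M a b + M b a = 0) (v : κ → S) : ∑ a, ∑ b, M a b * v a * v b = 0 := by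
  rw [← Finset.univ.sum_product' Finset.univ (fun a b => M a b * v a * v b)]
  apply Finset.sum_involution (fun x _ => (x.2, x.1))
  · rintro ⟨a, b⟩ _
    show M a b * v a * v b + M b a * v b * v a = 0
    linear_combination (v a * v b) * h1 a b
  · rintro ⟨a, b⟩ _ hne heq
    apply hne
    have hab : b = a := congrArg Prod.fst heq
    subst hab
    show M b b * v b * v b = 0
    rw [h0]
    ring
  · rintro ⟨a, b⟩ _
    exact Finset.mem_univ _
  · rintro ⟨a, b⟩ _
    rfl

/-- the matrix of the form -/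
def TT (Q : Matrix ι ι S) : Matrix (Fin 2 ⊕ ι) (Fin 2 ⊕ ι) S := Matrix.fromBlocks !![0, 1; 0, 0] 0 0 Q

omit [DecidableEq ι] in
theorem QQ_eq (Q : Matrix ι ι S) (v : Vc ι S) : QQ Q v = v ⬝ᵥ (TT Q *ᵥ v) := by
  unfold QQ TT qf rt
  simp only [dotProduct, Matrix.mulVec, Fintype.sum_sum_type, Fin.sum_univ_two,
    Matrix.fromBlocks_apply₁₁, Matrix.fromBlocks_apply₁₂, Matrix.fromBlocks_apply₂₁,
    Matrix.fromBlocks_apply₂₂, Matrix.zero_apply, zero_mul, Finset.sum_const_zero, add_zero, zero_add,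
    Matrix.of_apply, Matrix.cons_val', Matrix.cons_val_zero, Matrix.cons_val_one, Matrix.cons_val_fin_one,
    one_mul, mul_zero, Finset.mul_sum]
  congr 1
  refine Finset.sum_congr rfl fun i _ => Finset.sum_congr rfl fun k _ => ?_
  ring

omit [DecidableEq ι] in
theorem QQ_diff (Q : Matrix ι ι S) (g : Matrix (Fin 2 ⊕ ι) (Fin 2 ⊕ ι) S) (v : Vc ι S) :
    QQ Q (g *ᵥ v) - QQ Q v = ∑ a, ∑ b, (gᵀ * TT Q * g - TT Q) a b * v a * v b := by
  have h1 : QQ Q (g *ᵥ v) = v ⬝ᵥ ((gᵀ * TT Q * g) *ᵥ v) := by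
    rw [QQ_eq, ← Matrix.mulVec_mulVec, ← Matrix.mulVec_mulVec, Matrix.dotProduct_mulVec v gᵀ,
      Matrix.vecMul_transpose]
  rw [h1, QQ_eq, ← dotProduct_sub, ← Matrix.sub_mulVec]
  simp only [dotProduct, Matrix.mulVec, Finset.mul_sum]
  refine Finset.sum_congr rfl fun i _ => Finset.sum_congr rfl fun k _ => ?_
  ring

/-- the base change of an isometry is an isometry -/
theorem mp_og {S' : Type} [CommRing S'] (j : S →+* S') (Q : Matrix ι ι S) {g : Gm ι S}
    (hg : g ∈ og Q) : mp j g ∈ og (Q.map j) := by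
  intro v
  rw [← sub_eq_zero, QQ_diff]
  have hT : TT (Q.map j) = (TT Q).map j := by
    ext a b
    rcases a with a | a <;> rcases b with b | b
    · fin_cases a <;> fin_cases b <;> simp [TT]
    · simp [TT]
    · simp [TT]
    · simp [TT]
  have hM : (mp j g).valᵀ * TT (Q.map j) * (mp j g).val - TT (Q.map j) =
      (g.valᵀ * TT Q * g.val - TT Q).map j := by
    have h1 : (mp j g).val = g.val.map j := rfl
    rw [hT, h1, Matrix.map_sub, Matrix.map_mul, Matrix.map_mul, Matrix.transpose_map]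
    intro a b
    exact map_sub j a b
  rw [hM]
  have key : ∀ w : Vc ι S, ∑ a, ∑ b, (g.valᵀ * TT Q * g.val - TT Q) a b * w a * w b = 0 := by
    intro w
    rw [← QQ_diff, hg w, sub_self]
  generalize g.valᵀ * TT Q * g.val - TT Q = M at key
  have hd : ∀ a, M a a = 0 := by
    intro a
    have h1 := key (Pi.single a 1)
    simpa [Pi.single_apply, Finset.sum_ite_eq', mul_comm] using h1
  apply alt_zero
  · intro a
    rw [Matrix.map_apply, hd, map_zero]
  · intro a b
    rw [Matrix.map_apply, Matrix.map_apply, ← map_add]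
    have h1 : M a b + M b a = 0 := by
      by_cases hab : a = b
      · subst hab
        rw [hd, add_zero]
      · have h2 := key (Pi.single a 1 + Pi.single b 1)
        have h3 : ∑ x, ∑ y, M x y * (Pi.single a 1 + Pi.single b 1 : Vc ι S) x *
            (Pi.single a 1 + Pi.single b 1 : Vc ι S) y = M a a + M a b + (M b a + M b b) := by
          have e1 : ∀ x, ∑ y, M x y * (Pi.single a 1 + Pi.single b 1 : Vc ι S) x *
              (Pi.single a 1 + Pi.single b 1 : Vc ι S) y =
              (M x a + M x b) * (Pi.single a 1 + Pi.single b 1 : Vc ι S) x := by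
            intro x
            simp only [Pi.add_apply, mul_add, Finset.sum_add_distrib, Pi.single_apply, mul_ite, mul_one,
              mul_zero, Finset.sum_ite_eq', Finset.mem_univ, if_true]
            split_ifs <;> ring
          simp only [Pi.add_apply, mul_add, Finset.sum_add_distrib, Pi.single_apply, mul_ite,
            mul_one, mul_zero, Finset.sum_ite_eq', Finset.mem_univ, if_true]
          ring
        rw [h3, hd, hd] at h2
        linear_combination h2
    rw [h1, map_zero]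

end groups

end Pool.Agent.U919.OQ
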