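import Pool.Agent.U919.OQ.Law
import Pool.Agent.U919.OQ.Field

/-!
# Proofs of the statements
-/

set_option autoImplicit false

namespace Pool.Agent.U919.OQ

open Pool.Agent.U919.GE (DegreeOver degreeOver_poly)
open Pool.Agent.U919.GE.Law (Cl)
open Pool.Agent.Y110.FJ (ClosedE)
open Law

variable {C : ∀ (G : Type) [Group G], Prop}

theorem C_fin (hC : Cl C) (G : Type) [Group G] [Finite G] : C G := by
  obtain ⟨hC, hM⟩ := hC
  have h0 : C Unit := hM Unit (by
    rw [eq_bot_iff]
    intro x _
    exact Subgroup.mem_bot.2 rfl)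
  refine hC.base.finiteIndex _ (⊥ : Subgroup G) inferInstance ?_
  refine hC.base.of_injective _ Unit 1 ?_ h0
  intro a b _
  exact Subsingleton.elim _ _

theorem C_bot (hC : Cl C) {G : Type} [Group G] {H : Subgroup G} (h : H = ⊥) : C H := by
  subst h
  exact C_fin hC _

theorem subgroups (hC : Cl C) : Subgroups C := by
  intro ι R S _ _ _ _ j ε d h Q hQ H hH hI
  refine main_sub h hC.closed hC.metabelian hQ H hH ?_
  rcases hI with hI | hI
  · exact hI
  · exact C_bot hC hI

theorem extensions (hC : Cl C) : Extensions C := by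
  intro ι R S _ _ _ _ j ε d h Q hQ A hA
  exact gen_iff h hC.closed hC.metabelian hQ A hA

theorem polynomials : Polynomials := fun _ R _ _ _ Q hq => ⟨degreeOver_poly R, aniso_poly Q hq⟩

theorem fields (hC : Cl C) : Fields C := by
  intro ι k _ _ _ Q hq
  have h := degreeOver_poly k
  have hQ := aniso_poly Q hq
  have hg := gen_field hq
  have h1 : ∀ H : Subgroup (Gm ι (Polynomial k)), H ≤ og (pol Q) →
      InG C (img Polynomial.constantCoeff H) ∨ img Polynomial.constantCoeff H = ⊥ → InG C H := by
    intro H hH hI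
    refine subgroups hC ι k _ _ _ _ h Q hQ H ?_ hI
    rw [hg]
    exact hH
  have h2 : (img Polynomial.constantCoeff (og (pol Q)) : Subgroup (Gm ι k)) ≤ og Q := by
    rintro _ ⟨g, hg', rfl⟩
    have := mp_og Polynomial.constantCoeff (pol Q) hg'
    have e : (pol Q).map Polynomial.constantCoeff = Q := map_map_eq h
    rwa [e] at this
  have h3 : InG C (og Q) → InG C (og (pol Q)) := by
    intro h4
    refine h1 _ le_rfl (Or.inl ?_)
    exact hC.closed.base.of_injective _ _ (Subgroup.inclusion h2) (Subgroup.inclusion_injective _) h4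
  refine ⟨h1, ⟨h3, ?_⟩, ?_⟩
  · intro h4
    refine hC.closed.base.of_injective _ _ (((mp (Polynomial.C : k →+* Polynomial k)).comp
      (og Q).subtype).codRestrict (og (pol Q)) (fun x => mp_og _ Q x.2)) ?_ h4
    intro x y hxy
    have h5 : mp (Polynomial.C : k →+* Polynomial k) (x : Gm ι k) = mp Polynomial.C y :=
      congrArg Subtype.val hxy
    have h6 := congrArg (mp Polynomial.constantCoeff) h5
    rw [mp_mp' h, mp_mp' h] at h6
    exact Subtype.ext h6
  · intro hk
    apply h3
    have : Finite (Gm ι k) := Finite.of_injective (fun g : Gm ι k => g.val) (fun a b h => Units.ext h)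
    exact C_fin hC _

end Pool.Agent.U919.OQ
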