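import Pool.Agent.U919.OQ.Defs
import Pool.Agent.U919.GE.Tree

/-!
# Levels of isometries
-/

set_option autoImplicit false

namespace Pool.Agent.U919.OQ

open Matrix
open Pool.Agent.U919.GE (DegreeOver Lvl)

section deg

variable {R S : Type} [CommRing R] [CommRing S] {j : R →+* S} {ε : S →+* R} {d : S → ℕ}

/-- the degree of a vector -/
def dv {κ : Type} [Fintype κ] (d : S → ℕ) (v : κ → S) : ℕ := Finset.univ.sup fun a => d (v a)

omit [CommRing S] in
theorem le_dv {κ : Type} [Fintype κ] (v : κ → S) (a : κ) : d (v a) ≤ dv d v :=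
  Finset.le_sup (f := fun a => d (v a)) (Finset.mem_univ a)

omit [CommRing S] in
theorem dv_le {κ : Type} [Fintype κ] {v : κ → S} {n : ℕ} (h : ∀ a, d (v a) ≤ n) : dv d v ≤ n :=
  Finset.sup_le fun a _ => h a

omit [CommRing S] in
theorem dv_ex {κ : Type} [Fintype κ] (v : κ → S) (h : 0 < dv d v) : ∃ a, d (v a) = dv d v := by
  have hne : (Finset.univ : Finset κ).Nonempty := by
    by_contra hn
    rw [Finset.not_nonempty_iff_eq_empty] at hn
    unfold dv at h
    rw [hn, Finset.sup_empty] at h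
    exact lt_irrefl _ h
  obtain ⟨a, _, ha⟩ := Finset.exists_mem_eq_sup Finset.univ hne (fun a => d (v a))
  exact ⟨a, ha.symm⟩

variable (h : DegreeOver j ε d)

include h

theorem d_mul_le' (a b : S) : d (a * b) ≤ d a + d b := by
  by_cases ha : a = 0
  · rw [ha, zero_mul, h.d_zero]
    exact Nat.zero_le _
  · by_cases hb : b = 0
    · rw [hb, mul_zero, h.d_zero]
      exact Nat.zero_le _
    · exact (h.mul a b ha hb).le

theorem d_cmul {a : S} (ha : d a = 0) (b : S) : d (a * b) ≤ d b := by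
  have := d_mul_le' h a b
  omega

theorem d_cmul_eq {a : S} (ha : d a = 0) (ha0 : a ≠ 0) (b : S) : d (a * b) = d b := by
  by_cases hb : b = 0
  · rw [hb, mul_zero]
  · rw [h.mul a b ha0 hb, ha, zero_add]

theorem d_sum_le {κ : Type} (s : Finset κ) (f : κ → S) (n : ℕ) (hf : ∀ a ∈ s, d (f a) ≤ n) :
    d (∑ a ∈ s, f a) ≤ n := by
  classical
  induction s using Finset.induction_on with
  | empty =>
    rw [Finset.sum_empty, h.d_zero]
    exact Nat.zero_le _
  | insert a s ha ih =>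
    rw [Finset.sum_insert ha]
    refine (h.add _ _).trans (max_le (hf a (Finset.mem_insert_self a s)) ?_)
    exact ih fun b hb => hf b (Finset.mem_insert_of_mem hb)

theorem d_add_le {a b : S} {n : ℕ} (ha : d a ≤ n) (hb : d b ≤ n) : d (a + b) ≤ n :=
  (h.add a b).trans (max_le ha hb)

theorem d_sub_le {a b : S} {n : ℕ} (ha : d a ≤ n) (hb : d b ≤ n) : d (a - b) ≤ n := by
  rw [sub_eq_add_neg]
  exact d_add_le h ha (by rwa [h.d_neg])

theorem mul_z {a b : S} (hab : a * b = 0) (ha : a ≠ 0) : b = 0 := by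
  by_contra hb
  exact h.mul_ne a b ha hb hab

variable {ι : Type} [Fintype ι]

theorem d_bf (Q : Matrix ι ι R) (w z : ι → S) : d (bf (Q.map j) w z) ≤ dv d w + dv d z := by
  unfold bf
  refine d_sum_le h _ _ _ fun i _ => d_sum_le h _ _ _ fun k _ => ?_
  rw [Matrix.map_apply]
  refine (d_cmul h (h.d_j _) _).trans (d_add_le h ?_ ?_)
  · exact (d_mul_le' h _ _).trans (add_le_add (le_dv w i) (le_dv z k))
  · refine (d_mul_le' h _ _).trans ?_
    rw [add_comm]
    exact add_le_add (le_dv w k) (le_dv z i)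

end deg

/-- the quadratic form is anisotropic over the ring `S` with the degree function `d`: it is zero only
at zero, and the degree of `q(w)` is twice the degree of `w` -/
structure Aniso {ι : Type} [Fintype ι] {R S : Type} [CommRing R] [CommRing S] (j : R →+* S)
    (d : S → ℕ) (Q : Matrix ι ι R) : Prop where
  deg : ∀ w : ι → S, d (qf (Q.map j) w) = 2 * dv d w
  ne : ∀ w : ι → S, qf (Q.map j) w = 0 → w = 0

section lev

variable {ι : Type} [Fintype ι] [DecidableEq ι]
  {R S : Type} [CommRing R] [CommRing S] {j : R →+* S} {ε : S →+* R} {d : S → ℕ}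

/-- the columns of a matrix -/
def col (g : Gm ι S) (b : Fin 2 ⊕ ι) : Vc ι S := fun a => g.val a b

/-- the basis vectors -/
def bs (ι S : Type) [DecidableEq ι] [CommRing S] (b : Fin 2 ⊕ ι) : Vc ι S := Pi.single b 1

theorem col_eq (g : Gm ι S) (b : Fin 2 ⊕ ι) : g.val *ᵥ bs ι S b = col g b := by
  funext a
  simp [bs, col]

theorem col_mul (g k : Gm ι S) (b : Fin 2 ⊕ ι) : col (g * k) b = g.val *ᵥ col k b := by
  rw [← col_eq, ← col_eq, Units.val_mul, Matrix.mulVec_mulVec]

theorem bs_e0 : bs ι S (Sum.inl 0) (Sum.inl 0) = 1 := Pi.single_eq_same _ _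
theorem bs_e1 : bs ι S (Sum.inl 0) (Sum.inl 1) = 0 := Pi.single_eq_of_ne (by simp) _
theorem bs_f0 : bs ι S (Sum.inl 1) (Sum.inl 0) = 0 := Pi.single_eq_of_ne (by simp) _
theorem bs_f1 : bs ι S (Sum.inl 1) (Sum.inl 1) = 1 := Pi.single_eq_same _ _
theorem bs_er : rt (bs ι S (Sum.inl 0)) = 0 := by
  funext i
  exact Pi.single_eq_of_ne (M := fun _ => S) (i := Sum.inl 0) (i' := Sum.inr i) (by simp) 1
theorem bs_fr : rt (bs ι S (Sum.inl 1)) = 0 := by
  funext i
  exact Pi.single_eq_of_ne (M := fun _ => S) (i := Sum.inl 1) (i' := Sum.inr i) (by simp) 1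
theorem bs_k0 (k : ι) : bs ι S (Sum.inr k) (Sum.inl 0) = 0 := Pi.single_eq_of_ne (by simp) _
theorem bs_k1 (k : ι) : bs ι S (Sum.inr k) (Sum.inl 1) = 0 := Pi.single_eq_of_ne (by simp) _

theorem BB_e (Q : Matrix ι ι S) (v : Vc ι S) : BB Q v (bs ι S (Sum.inl 0)) = v (Sum.inl 1) := by
  unfold BB
  rw [bs_e0, bs_e1, bs_er, bf_zero]
  ring

theorem BB_f (Q : Matrix ι ι S) (v : Vc ι S) : BB Q v (bs ι S (Sum.inl 1)) = v (Sum.inl 0) := by
  unfold BB
  rw [bs_f0, bs_f1, bs_fr, bf_zero]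
  ring

theorem QQ_e (Q : Matrix ι ι S) : QQ Q (bs ι S (Sum.inl 0)) = 0 := by
  unfold QQ
  rw [bs_e0, bs_e1, bs_er, qf_zero]
  ring

theorem QQ_f (Q : Matrix ι ι S) : QQ Q (bs ι S (Sum.inl 1)) = 0 := by
  unfold QQ
  rw [bs_f0, bs_f1, bs_fr, qf_zero]
  ring

theorem BB_inv {Q : Matrix ι ι S} {g : Gm ι S} (hg : g ∈ og Q) (v w : Vc ι S) :
    BB Q (g.val *ᵥ v) w = BB Q v ((g⁻¹).val *ᵥ w) := by
  rw [← og_BB hg v, Matrix.mulVec_mulVec, ← Units.val_mul, mul_inv_cancel, Units.val_one,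
    Matrix.one_mulVec]

/-- the level of the cosets of the first group -/
def lN (d : S → ℕ) (g : Gm ι S) : ℕ := Finset.univ.sup fun b => dv d (col g b)

/-- the level of the cosets of the second group -/
def lM (d : S → ℕ) (g : Gm ι S) : ℕ := dv d (col g (Sum.inl 0))

theorem le_lN (g : Gm ι S) (a b : Fin 2 ⊕ ι) : d (g.val a b) ≤ lN d g :=
  (le_dv (col g b) a).trans (Finset.le_sup (f := fun b => dv d (col g b)) (Finset.mem_univ b))

theorem lN_le {g : Gm ι S} {n : ℕ} (h : ∀ a b, d (g.val a b) ≤ n) : lN d g ≤ n :=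
  Finset.sup_le fun b _ => dv_le fun a => h a b

theorem le_lM (g : Gm ι S) (a : Fin 2 ⊕ ι) : d (g.val a (Sum.inl 0)) ≤ lM d g :=
  le_dv (col g (Sum.inl 0)) a

variable (h : DegreeOver j ε d) {Q : Matrix ι ι R}

include h

omit [DecidableEq ι] in
theorem zero_of_dv (w : ι → S) (hQ : Aniso j d Q) (hq : d (qf (Q.map j) w) = 0) : dv d w = 0 := by
  have := hQ.deg w
  omega

/-- the matrices with coefficients in `R` -/
theorem mem_map_og {g : Gm ι S} : g ∈ (og Q).map (mp j) ↔
    g ∈ og (Q.map j) ∧ ∀ a b, d (g.val a b) = 0 := by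
  constructor
  · rintro ⟨g0, hg0, rfl⟩
    exact ⟨mp_og j Q hg0, fun a b => h.d_j _⟩
  · rintro ⟨hg, hc⟩
    have he : mp j (mp ε g) = g := by
      apply Units.ext
      ext a b
      rw [mp_apply, mp_apply]
      obtain ⟨r, hr⟩ := (h.zero_iff _).1 (hc a b)
      rw [← hr, h.ret]
    refine ⟨mp ε g, ?_, he⟩
    intro v
    apply h.j_inj
    rw [← map_QQ, ← map_QQ, ← mp_mulVec, he]
    exact hg _

/-- the constant vectors of degree zero -/
theorem d_mulVec {M : Matrix (Fin 2 ⊕ ι) (Fin 2 ⊕ ι) S} {v : Vc ι S} {n : ℕ}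
    (hM : ∀ a b, d (M a b) ≤ n) (hv : ∀ b, d (v b) = 0) (a : Fin 2 ⊕ ι) : d ((M *ᵥ v) a) ≤ n := by
  unfold Matrix.mulVec dotProduct
  refine d_sum_le h _ _ _ fun b _ => ?_
  have h1 := d_mul_le' h (M a b) (v b)
  have h2 := hM a b
  have h3 := hv b
  rw [h3, add_zero] at h1
  exact h1.trans h2

theorem lN_mul_le (g : Gm ι S) {a : Gm ι S} (ha : ∀ x y, d (a.val x y) = 0) :
    lN d (g * a) ≤ lN d g := by
  apply lN_le
  intro x y
  have h1 := d_mulVec h (M := g.val) (v := col a y) (n := lN d g) (fun x y => le_lN g x y)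
    (fun b => ha b y) x
  rw [← col_mul] at h1
  exact h1

theorem e_ne (g : Gm ι S) : ∃ a, g.val a (Sum.inl 0) ≠ 0 := by
  by_contra hcon
  push Not at hcon
  have h1 : (g.inv * g.val) (Sum.inl 0) (Sum.inl 0) =
      (1 : Matrix (Fin 2 ⊕ ι) (Fin 2 ⊕ ι) S) (Sum.inl 0) (Sum.inl 0) := by rw [g.inv_val]
  rw [Matrix.mul_apply, Matrix.one_apply_eq] at h1
  apply h.nontrivial
  rw [← h1]
  apply Finset.sum_eq_zero
  intro a _
  rw [hcon, mul_zero]

/-- the stabilizer of the line of `e`, with coefficients in `R` on the quotient -/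
structure IsB (d : S → ℕ) (g : Gm ι S) : Prop where
  z : ∀ a, a ≠ Sum.inl 0 → g.val a (Sum.inl 0) = 0
  u : d (g.val (Sum.inl 0) (Sum.inl 0)) = 0
  c : ∀ i k : ι, d (g.val (Sum.inr i) (Sum.inr k)) = 0

omit h in
theorem IsB.r {g : Gm ι S} (hb : IsB d g) : rt (col g (Sum.inl 0)) = 0 := by
  funext i
  exact hb.z _ (by simp)

theorem IsB.ne {g : Gm ι S} (hb : IsB d g) : g.val (Sum.inl 0) (Sum.inl 0) ≠ 0 := by
  obtain ⟨a, ha⟩ := e_ne h g
  by_cases h1 : a = Sum.inl 0
  · rwa [h1] at ha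
  · exact absurd (hb.z a h1) ha

omit h in
theorem BB_ue {g : Gm ι S} (hb : ∀ a, a ≠ Sum.inl 0 → g.val a (Sum.inl 0) = 0) (P : Matrix ι ι S)
    (v : Vc ι S) : BB P (col g (Sum.inl 0)) v = g.val (Sum.inl 0) (Sum.inl 0) * v (Sum.inl 1) := by
  have h1 : rt (col g (Sum.inl 0)) = 0 := by
    funext i
    exact hb _ (by simp)
  have h2 : col g (Sum.inl 0) (Sum.inl 1) = 0 := hb _ (by simp)
  unfold BB
  rw [h1, h2, bf_comm, bf_zero]
  show g.val (Sum.inl 0) (Sum.inl 0) * v (Sum.inl 1) + _ + _ = _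
  ring

theorem IsB.fk {g : Gm ι S} (hb : IsB d g) (hg : g ∈ og (Q.map j)) (k : ι) :
    g.val (Sum.inl 1) (Sum.inr k) = 0 := by
  have h1 := og_BB hg (bs ι S (Sum.inl 0)) (bs ι S (Sum.inr k))
  rw [col_eq, col_eq, BB_ue hb.z, BB_comm, BB_e, bs_k1] at h1
  exact mul_z h h1 (hb.ne h)

theorem IsB.ff {g : Gm ι S} (hb : IsB d g) (hg : g ∈ og (Q.map j)) :
    g.val (Sum.inl 0) (Sum.inl 0) * g.val (Sum.inl 1) (Sum.inl 1) = 1 := by
  have h1 := og_BB hg (bs ι S (Sum.inl 0)) (bs ι S (Sum.inl 1))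
  rw [col_eq, col_eq, BB_ue hb.z, BB_f, bs_e0] at h1
  exact h1

/-- the second group -/
def Bg (h : DegreeOver j ε d) (hQ : Aniso j d Q) : Subgroup (og (Q.map j)) where
  carrier := {g | IsB d (g : Gm ι S)}
  one_mem' := by
    refine ⟨?_, ?_, ?_⟩
    · intro a ha
      exact Matrix.one_apply_ne ha
    · show d ((1 : Matrix (Fin 2 ⊕ ι) (Fin 2 ⊕ ι) S) (Sum.inl 0) (Sum.inl 0)) = 0
      rw [Matrix.one_apply_eq, h.d_one]
    · intro i k
      show d ((1 : Matrix (Fin 2 ⊕ ι) (Fin 2 ⊕ ι) S) (Sum.inr i) (Sum.inr k)) = 0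
      by_cases hik : i = k
      · rw [hik, Matrix.one_apply_eq, h.d_one]
      · rw [Matrix.one_apply_ne (by simpa using hik), h.d_zero]
  mul_mem' := by
    rintro ⟨g, hg⟩ ⟨k, hk⟩ hgb hkb
    have hgb' : IsB d g := hgb
    have hkb' : IsB d k := hkb
    have e1 : ∀ a, (g * k).val a (Sum.inl 0) = g.val a (Sum.inl 0) * k.val (Sum.inl 0) (Sum.inl 0) := by
      intro a
      rw [Units.val_mul, Matrix.mul_apply]
      rw [Finset.sum_eq_single (Sum.inl 0)]
      · intro b _ hb
        rw [hkb'.z b hb, mul_zero]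
      · intro hn
        exact absurd (Finset.mem_univ _) hn
    refine ⟨?_, ?_, ?_⟩
    · intro a ha
      show (g * k).val a (Sum.inl 0) = 0
      rw [e1, hgb'.z a ha, zero_mul]
    · show d ((g * k).val (Sum.inl 0) (Sum.inl 0)) = 0
      rw [e1]
      have := d_mul_le' h (g.val (Sum.inl 0) (Sum.inl 0)) (k.val (Sum.inl 0) (Sum.inl 0))
      have h2 := hgb'.u
      have h3 := hkb'.u
      omega
    · intro i l
      show d ((g * k).val (Sum.inr i) (Sum.inr l)) = 0
      rw [Units.val_mul, Matrix.mul_apply, Fintype.sum_sum_type, Fin.sum_univ_two,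
        hgb'.z _ (by simp), hkb'.fk h hk, zero_mul, mul_zero, add_zero, zero_add]
      apply Nat.le_zero.1
      refine d_sum_le h _ _ _ fun m _ => ?_
      have := d_mul_le' h (g.val (Sum.inr i) (Sum.inr m)) (k.val (Sum.inr m) (Sum.inr l))
      have h2 := hgb'.c i m
      have h3 := hkb'.c m l
      omega
  inv_mem' := by
    rintro ⟨g, hg⟩ hgb
    have hgb' : IsB d g := hgb
    have hne := hgb'.ne h
    have hgi : g⁻¹ ∈ og (Q.map j) := inv_mem hg
    have e1 : ∀ a, (g⁻¹).val a (Sum.inl 0) * g.val (Sum.inl 0) (Sum.inl 0) =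
        (1 : Matrix (Fin 2 ⊕ ι) (Fin 2 ⊕ ι) S) a (Sum.inl 0) := by
      intro a
      have h1 : (g⁻¹ * g).val a (Sum.inl 0) = (1 : Matrix (Fin 2 ⊕ ι) (Fin 2 ⊕ ι) S) a (Sum.inl 0) := by
        rw [inv_mul_cancel]
        rfl
      rw [← h1, Units.val_mul, Matrix.mul_apply, Finset.sum_eq_single (Sum.inl 0)]
      · intro b _ hb
        rw [hgb'.z b hb, mul_zero]
      · intro hn
        exact absurd (Finset.mem_univ _) hn
    have hz : ∀ a, a ≠ Sum.inl 0 → (g⁻¹).val a (Sum.inl 0) = 0 := by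
      intro a ha
      have h1 := e1 a
      rw [Matrix.one_apply_ne ha, mul_comm] at h1
      exact mul_z h h1 hne
    refine ⟨hz, ?_, ?_⟩
    · show d ((g⁻¹).val (Sum.inl 0) (Sum.inl 0)) = 0
      have h1 := e1 (Sum.inl 0)
      rw [Matrix.one_apply_eq] at h1
      have h2 : (g⁻¹).val (Sum.inl 0) (Sum.inl 0) ≠ 0 := by
        intro h0
        rw [h0, zero_mul] at h1
        exact h.nontrivial h1.symm
      have h3 := h.mul _ _ h2 hne
      rw [h1, h.d_one] at h3
      omega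
    · intro i k
      show d ((g⁻¹).val (Sum.inr i) (Sum.inr k)) = 0
      have h0 : (g⁻¹).val (Sum.inl 0) (Sum.inl 0) ≠ 0 := by
        intro h0
        have h1 := e1 (Sum.inl 0)
        rw [h0, zero_mul, Matrix.one_apply_eq] at h1
        exact h.nontrivial h1.symm
      have h1 := og_BB hgi (bs ι S (Sum.inl 0)) (bs ι S (Sum.inr k))
      rw [col_eq, col_eq, BB_ue hz, BB_comm, BB_e, bs_k1] at h1
      have h2 : col g⁻¹ (Sum.inr k) (Sum.inl 1) = 0 := mul_z h h1 h0
      have h3 := hgi (bs ι S (Sum.inr k))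
      rw [col_eq] at h3
      have h4 : qf (Q.map j) (rt (col g⁻¹ (Sum.inr k))) = QQ (Q.map j) (bs ι S (Sum.inr k)) := by
        rw [← h3]
        unfold QQ
        rw [h2, mul_zero, zero_add]
      have h5 : (bs ι S (Sum.inr k)) = fun a => j (bs ι R (Sum.inr k) a) := by
        funext a
        unfold bs
        by_cases hak : a = Sum.inr k
        · rw [hak, Pi.single_eq_same, Pi.single_eq_same, map_one]
        · rw [Pi.single_eq_of_ne hak, Pi.single_eq_of_ne hak, map_zero]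
      rw [h5, map_QQ] at h4
      have h6 := zero_of_dv h (Q := Q) (rt (col g⁻¹ (Sum.inr k))) hQ (by rw [h4, h.d_j])
      have h7 := le_dv (d := d) (rt (col g⁻¹ (Sum.inr k))) i
      rw [h6] at h7
      exact Nat.le_zero.1 h7

/-- the first group -/
def Ag (j : R →+* S) (Q : Matrix ι ι R) : Subgroup (og (Q.map j)) :=
  ((og Q).map (mp j)).subgroupOf (og (Q.map j))

theorem mem_Ag {g : og (Q.map j)} : g ∈ Ag j Q ↔ ∀ a b, d ((g : Gm ι S).val a b) = 0 := by
  unfold Ag
  rw [Subgroup.mem_subgroupOf, mem_map_og h]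
  exact ⟨fun h1 => h1.2, fun h1 => ⟨g.2, h1⟩⟩

/-- the key estimate: `y` isotropic with nonzero second coordinate; the vectors orthogonal to `e` and
`y` are mapped to vectors of small degree if `e` and `y` are -/
theorem key_perp (hQ : Aniso j d Q) {g : Gm ι S} (hg : g ∈ og (Q.map j)) {y : Vc ι S}
    (hy : QQ (Q.map j) y = 0) (hyc : ∀ a, d (y a) = 0) {D : ℕ}
    (h1 : ∀ a, d ((g.val *ᵥ bs ι S (Sum.inl 0)) a) ≤ D) (h2 : ∀ a, d ((g.val *ᵥ y) a) ≤ D)
    {w : ι → S} (hw : dv d w = 0) {o : Vc ι S} (ho0 : o (Sum.inl 0) = - bf (Q.map j) w (rt y))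
    (ho1 : o (Sum.inl 1) = 0) (hor : rt o = y (Sum.inl 1) • w) (a : Fin 2 ⊕ ι) :
    d ((g.val *ᵥ o) a) ≤ D := by
  -- the estimate for the products with isotropic vectors
  have key : ∀ p : Vc ι S, QQ (Q.map j) p = 0 → d (BB (Q.map j) p (g.val *ᵥ bs ι S (Sum.inl 0))) ≤ D →
      d (BB (Q.map j) p (g.val *ᵥ y)) ≤ D → d (BB (Q.map j) (g.val *ᵥ o) p) ≤ D := by
    intro p hp hpe hpy
    obtain ⟨k, hk⟩ : ∃ k, k = (g⁻¹).val *ᵥ p := ⟨_, rfl⟩
    have hgi : g⁻¹ ∈ og (Q.map j) := inv_mem hg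
    have hkq : QQ (Q.map j) k = 0 := by rw [hk, hgi p, hp]
    have hke : k (Sum.inl 1) = BB (Q.map j) p (g.val *ᵥ bs ι S (Sum.inl 0)) := by
      rw [← BB_e (Q.map j) k, hk, BB_inv hgi, inv_inv]
    have hky : BB (Q.map j) k y = BB (Q.map j) p (g.val *ᵥ y) := by
      rw [hk, BB_inv hgi, inv_inv]
    obtain ⟨t, ht⟩ : ∃ t, t = y (Sum.inl 1) • rt k - k (Sum.inl 1) • rt y := ⟨_, rfl⟩
    have e1 : BB (Q.map j) (g.val *ᵥ o) p = bf (Q.map j) w t := by
      rw [BB_inv hg, ← hk, ht, sub_eq_add_neg, bf_add, bf_neg, bf_smul, bf_smul]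
      unfold BB
      rw [ho0, ho1, hor, smul_bf]
      ring
    have e2 : qf (Q.map j) t = - (y (Sum.inl 1) * k (Sum.inl 1) * BB (Q.map j) k y) := by
      rw [ht, sub_eq_add_neg, qf_add, qf_neg, bf_neg, qf_smul, qf_smul, smul_bf, bf_smul]
      have e3 : qf (Q.map j) (rt k) = - (k (Sum.inl 0) * k (Sum.inl 1)) := by
        unfold QQ at hkq
        linear_combination hkq
      have e4 : qf (Q.map j) (rt y) = - (y (Sum.inl 0) * y (Sum.inl 1)) := by
        unfold QQ at hy
        linear_combination hy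
      rw [e3, e4]
      unfold BB
      ring
    have e5 : d (qf (Q.map j) t) ≤ D + D := by
      rw [e2, h.d_neg]
      refine (d_mul_le' h _ _).trans (add_le_add ?_ ?_)
      · refine (d_cmul h (hyc _) _).trans ?_
        rw [hke]
        exact hpe
      · rw [hky]
        exact hpy
    have e6 := hQ.deg t
    rw [e1]
    refine (d_bf h Q w t).trans ?_
    omega
  have k0 : d ((g.val *ᵥ o) (Sum.inl 0)) ≤ D := by
    rw [← BB_f (Q.map j) (g.val *ᵥ o)]
    apply key _ (QQ_f _)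
    · rw [BB_comm, BB_f]
      exact h1 _
    · rw [BB_comm, BB_f]
      exact h2 _
  have k1 : d ((g.val *ᵥ o) (Sum.inl 1)) ≤ D := by
    rw [← BB_e (Q.map j) (g.val *ᵥ o)]
    apply key _ (QQ_e _)
    · rw [BB_comm, BB_e]
      exact h1 _
    · rw [BB_comm, BB_e]
      exact h2 _
  have hoq : d (QQ (Q.map j) o) = 0 := by
    unfold QQ
    rw [ho1, mul_zero, zero_add, hor, qf_smul]
    have e1 := hQ.deg w
    rw [hw, mul_zero] at e1
    have e2 := d_mul_le' h (y (Sum.inl 1) ^ 2) (qf (Q.map j) w)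
    have e3 := d_mul_le' h (y (Sum.inl 1)) (y (Sum.inl 1))
    rw [← pow_two] at e3
    have e4 := hyc (Sum.inl 1)
    omega
  rcases a with a | i
  · fin_cases a
    · exact k0
    · exact k1
  · have e1 : qf (Q.map j) (rt (g.val *ᵥ o)) = QQ (Q.map j) o -
        (g.val *ᵥ o) (Sum.inl 0) * (g.val *ᵥ o) (Sum.inl 1) := by
      rw [← hg o]
      unfold QQ
      ring
    have e2 : d (qf (Q.map j) (rt (g.val *ᵥ o))) ≤ D + D := by
      rw [e1]
      apply d_sub_le h
      · rw [hoq]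
        exact Nat.zero_le _
      · exact (d_mul_le' h _ _).trans (add_le_add k0 k1)
    have e3 := hQ.deg (rt (g.val *ᵥ o))
    have e4 := le_dv (d := d) (rt (g.val *ᵥ o)) i
    have e5 : rt (g.val *ᵥ o) i = (g.val *ᵥ o) (Sum.inr i) := rfl
    rw [e5] at e4
    omega

/-- all constant vectors are then mapped to vectors of small degree -/
theorem key_all (hQ : Aniso j d Q) {g : Gm ι S} (hg : g ∈ og (Q.map j)) {y : Vc ι S}
    (hy : QQ (Q.map j) y = 0) (hyc : ∀ a, d (y a) = 0) (hy1 : y (Sum.inl 1) ≠ 0) {D : ℕ}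
    (h1 : ∀ a, d ((g.val *ᵥ bs ι S (Sum.inl 0)) a) ≤ D) (h2 : ∀ a, d ((g.val *ᵥ y) a) ≤ D)
    {v : Vc ι S} (hv : ∀ a, d (v a) = 0) (a : Fin 2 ⊕ ι) : d ((g.val *ᵥ v) a) ≤ D := by
  obtain ⟨w, hw⟩ : ∃ w, w = y (Sum.inl 1) • rt v - v (Sum.inl 1) • rt y := ⟨_, rfl⟩
  obtain ⟨β, hβ⟩ : ∃ β, β = y (Sum.inl 1) := ⟨_, rfl⟩
  have hβd : d β = 0 := by rw [hβ]; exact hyc _
  have hw0 : dv d w = 0 := by
    apply Nat.le_zero.1
    apply dv_le
    intro i
    rw [hw]
    apply d_sub_le h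
    · exact (d_cmul h (hyc _) _).trans (hv _).le
    · exact (d_cmul h (hv _) _).trans (hyc _).le
  obtain ⟨o, ho⟩ : ∃ o : Vc ι S, o = (β ^ 2) • v - (β * BB (Q.map j) v y) • bs ι S (Sum.inl 0) -
      (β * v (Sum.inl 1)) • y := ⟨_, rfl⟩
  have ho1 : o (Sum.inl 1) = 0 := by
    rw [ho]
    simp only [Pi.sub_apply, Pi.smul_apply, smul_eq_mul, bs_e1]
    rw [← hβ]
    ring
  have hor : rt o = β • w := by
    have e1 : rt o = (β ^ 2) • rt v - (β * BB (Q.map j) v y) • rt (bs ι S (Sum.inl 0)) -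
        (β * v (Sum.inl 1)) • rt y := by rw [ho]; rfl
    rw [e1, bs_er, smul_zero, sub_zero, hw, ← hβ, smul_sub, smul_smul, smul_smul, pow_two]
  have ho0 : o (Sum.inl 0) = - bf (Q.map j) w (rt y) := by
    have e4 : qf (Q.map j) (rt y) = - (y (Sum.inl 0) * β) := by
      unfold QQ at hy
      rw [hβ]
      linear_combination hy
    have e1 : bf (Q.map j) w (rt y) = β * bf (Q.map j) (rt v) (rt y) -
        v (Sum.inl 1) * (2 * qf (Q.map j) (rt y)) := by
      rw [hw, ← hβ, sub_eq_add_neg, add_bf, ← neg_smul, smul_bf, smul_bf, bf_self]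
      ring
    rw [e1, e4, ho]
    simp only [Pi.sub_apply, Pi.smul_apply, smul_eq_mul, bs_e0]
    unfold BB
    rw [← hβ]
    ring
  have e1 := key_perp h hQ hg hy hyc h1 h2 hw0 ho0 ho1 (by rw [hor, hβ]) a
  have e2 : (β ^ 2) • v = o + (β * BB (Q.map j) v y) • bs ι S (Sum.inl 0) +
      (β * v (Sum.inl 1)) • y := by
    rw [ho]
    abel
  have e3 := congrArg (fun x => (g.val *ᵥ x) a) e2
  simp only [Matrix.mulVec_add, Matrix.mulVec_smul, Pi.add_apply, Pi.smul_apply, smul_eq_mul] at e3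
  have hBB : d (BB (Q.map j) v y) = 0 := by
    unfold BB
    apply Nat.le_zero.1
    refine d_add_le h (d_add_le h ?_ ?_) ?_
    · exact (d_cmul h (hv _) _).trans (hyc _).le
    · exact (d_cmul h (hv _) _).trans (hyc _).le
    · refine (d_bf h Q _ _).trans ?_
      have e5 : dv d (rt v) = 0 := Nat.le_zero.1 (dv_le fun i => (hv _).le)
      have e6 : dv d (rt y) = 0 := Nat.le_zero.1 (dv_le fun i => (hyc _).le)
      omega
  have e4 : d (β ^ 2 * (g.val *ᵥ v) a) ≤ D := by
    rw [e3]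
    refine d_add_le h (d_add_le h e1 ?_) ?_
    · refine (d_cmul h ?_ _).trans (h1 a)
      have := d_mul_le' h β (BB (Q.map j) v y)
      omega
    · refine (d_cmul h ?_ _).trans (h2 a)
      have := d_mul_le' h β (v (Sum.inl 1))
      have h3 := hv (Sum.inl 1)
      omega
  have hb2 : β ≠ 0 := by rw [hβ]; exact hy1
  have hb3 : β ^ 2 ≠ 0 := by
    rw [pow_two]
    exact h.mul_ne _ _ hb2 hb2
  have hb4 : d (β ^ 2) = 0 := by
    rw [pow_two, h.mul _ _ hb2 hb2, hβd]
  rwa [d_cmul_eq h hb4 hb3] at e4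

theorem lvl (hQ : Aniso j d Q) : Lvl (Ag j Q) (Bg h hQ) (fun g => lN d (g : Gm ι S))
    (fun g => lM d (g : Gm ι S)) := by
  have hNle : ∀ g : og (Q.map j), ∀ a ∈ Ag j Q, lN d ((g * a : og (Q.map j)) : Gm ι S) ≤
      lN d (g : Gm ι S) := fun g a ha => lN_mul_le h _ ((mem_Ag h).1 ha)
  have hcolB : ∀ g : og (Q.map j), ∀ b ∈ Bg h hQ, ∀ x, ((g * b : og (Q.map j)) : Gm ι S).val x (Sum.inl 0) =
      (g : Gm ι S).val x (Sum.inl 0) * (b : Gm ι S).val (Sum.inl 0) (Sum.inl 0) := by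
    intro g b hb x
    have hb' : IsB d (b : Gm ι S) := hb
    rw [Subgroup.coe_mul, Units.val_mul, Matrix.mul_apply, Finset.sum_eq_single (Sum.inl 0)]
    · intro c _ hc
      rw [hb'.z c hc, mul_zero]
    · intro hn
      exact absurd (Finset.mem_univ _) hn
  refine ⟨?_, ?_, ?_, ?_, ?_⟩
  · intro g a ha
    apply le_antisymm (hNle g a ha)
    have h1 := hNle (g * a) a⁻¹ (inv_mem ha)
    rwa [mul_inv_cancel_right] at h1
  · intro g b hb
    have hb' : IsB d (b : Gm ι S) := hb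
    show dv d _ = dv d _
    unfold dv
    apply Finset.sup_congr rfl
    intro x _
    show d (((g * b : og (Q.map j)) : Gm ι S).val x (Sum.inl 0)) = d ((g : Gm ι S).val x (Sum.inl 0))
    rw [hcolB g b hb x, mul_comm, d_cmul_eq h hb'.u (hb'.ne h)]
  · intro g a ha hlt1 hlt2
    have hac := (mem_Ag h).1 ha
    obtain ⟨y, hy⟩ : ∃ y, y = col (a : Gm ι S) (Sum.inl 0) := ⟨_, rfl⟩
    have hyc : ∀ x, d (y x) = 0 := fun x => by rw [hy]; exact hac _ _
    have hyq : QQ (Q.map j) y = 0 := by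
      rw [hy, ← col_eq, a.2, QQ_e]
    by_cases hy1 : y (Sum.inl 1) = 0
    · have hz : rt y = 0 := by
        apply hQ.ne
        unfold QQ at hyq
        rwa [hy1, mul_zero, zero_add] at hyq
      refine ⟨?_, hac _ _, fun i k => hac _ _⟩
      intro x hx
      show col (a : Gm ι S) (Sum.inl 0) x = 0
      rw [← hy]
      rcases x with x | i
      · fin_cases x
        · exact absurd rfl hx
        · exact hy1
      · exact congrFun hz i
    · exfalso
      have h1 : ∀ x, d (((g : Gm ι S).val *ᵥ bs ι S (Sum.inl 0)) x) ≤ lN d (g : Gm ι S) - 1 := by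
        intro x
        rw [col_eq]
        have := le_lM (d := d) (g : Gm ι S) x
        have e : col (g : Gm ι S) (Sum.inl 0) x = (g : Gm ι S).val x (Sum.inl 0) := rfl
        rw [e]
        omega
      have h2 : ∀ x, d (((g : Gm ι S).val *ᵥ y) x) ≤ lN d (g : Gm ι S) - 1 := by
        intro x
        rw [hy, ← col_mul]
        have := le_lM (d := d) ((g : Gm ι S) * (a : Gm ι S)) x
        have e : col ((g : Gm ι S) * (a : Gm ι S)) (Sum.inl 0) x =
          ((g : Gm ι S) * (a : Gm ι S)).val x (Sum.inl 0) := rfl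
        have hlt3 : lM d ((g : Gm ι S) * (a : Gm ι S)) < lN d (g : Gm ι S) := hlt2
        rw [e]
        omega
      have h3 : lN d (g : Gm ι S) ≤ lN d (g : Gm ι S) - 1 := by
        apply lN_le
        intro x b
        have h4 := key_all h hQ g.2 hyq hyc hy1 h1 h2 (v := bs ι S b) (by
          intro c
          unfold bs
          by_cases hc : c = b
          · rw [hc, Pi.single_eq_same, h.d_one]
          · rw [Pi.single_eq_of_ne hc, h.d_zero]) x
        rw [col_eq] at h4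
        exact h4
      omega
  · intro g b hb hle1 hle2
    have hb' : IsB d (b : Gm ι S) := hb
    have hff := hb'.ff (Q := Q) h b.2
    obtain ⟨u, hu⟩ : ∃ u, u = (b : Gm ι S).val (Sum.inl 0) (Sum.inl 0) := ⟨_, rfl⟩
    obtain ⟨u', hu'⟩ : ∃ u', u' = (b : Gm ι S).val (Sum.inl 1) (Sum.inl 1) := ⟨_, rfl⟩
    rw [← hu, ← hu'] at hff
    have hu0 : d u = 0 := by rw [hu]; exact hb'.u
    have hune : u ≠ 0 := by rw [hu]; exact hb'.ne h
    have hune' : u' ≠ 0 := by
      intro h0
      rw [h0, mul_zero] at hff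
      exact h.nontrivial hff.symm
    have hu0' : d u' = 0 := by
      have := h.mul u u' hune hune'
      rw [hff, h.d_one] at this
      omega
    obtain ⟨z, hz⟩ : ∃ z, z = rt (col (b : Gm ι S) (Sum.inl 1)) := ⟨_, rfl⟩
    obtain ⟨x, hx⟩ : ∃ x, x = (b : Gm ι S).val (Sum.inl 0) (Sum.inl 1) := ⟨_, rfl⟩
    have hxz : x * u' + qf (Q.map j) z = 0 := by
      have h1 := b.2 (bs ι S (Sum.inl 1))
      rw [col_eq, QQ_f] at h1
      unfold QQ at h1
      rw [hz, hx, hu']
      exact h1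
    have hzq := hQ.deg z
    have hxd : d x = 2 * dv d z := by
      rw [← hzq]
      have h1 : u' * x = - qf (Q.map j) z := by linear_combination hxz
      rw [← d_cmul_eq h hu0' hune' x, h1, h.d_neg]
    -- the vector `z` is constant
    have hz0 : dv d z = 0 := by
      by_contra hpos
      have hpos' : 0 < dv d z := Nat.pos_of_ne_zero hpos
      have hx0 : x ≠ 0 := by
        intro h0
        rw [h0, h.d_zero] at hxd
        omega
      obtain ⟨c, hc⟩ : ∃ c, d ((g : Gm ι S).val c (Sum.inl 0)) = lM d (g : Gm ι S) ∧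
          (g : Gm ι S).val c (Sum.inl 0) ≠ 0 := by
        rcases Nat.eq_zero_or_pos (lM d (g : Gm ι S)) with h0 | h0
        · obtain ⟨c, hc⟩ := e_ne h (g : Gm ι S)
          refine ⟨c, ?_, hc⟩
          have := le_lM (d := d) (g : Gm ι S) c
          omega
        · obtain ⟨c, hc⟩ := dv_ex (d := d) (col (g : Gm ι S) (Sum.inl 0)) h0
          refine ⟨c, hc, ?_⟩
          intro h1
          have h2 : d (col (g : Gm ι S) (Sum.inl 0) c) = 0 := by
            show d ((g : Gm ι S).val c (Sum.inl 0)) = 0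
            rw [h1, h.d_zero]
          have h3 : 0 < dv d (col (g : Gm ι S) (Sum.inl 0)) := h0
          omega
      have h1 : ((g * b : og (Q.map j)) : Gm ι S).val c (Sum.inl 1) =
          ((g : Gm ι S).val c (Sum.inl 1) * u' +
            ∑ i, (g : Gm ι S).val c (Sum.inr i) * z i) + (g : Gm ι S).val c (Sum.inl 0) * x := by
        rw [Subgroup.coe_mul, Units.val_mul, Matrix.mul_apply, Fintype.sum_sum_type, Fin.sum_univ_two,
          hz, hx, hu']
        have e : ∀ i, rt (col (b : Gm ι S) (Sum.inl 1)) i = (b : Gm ι S).val (Sum.inr i) (Sum.inl 1) :=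
          fun i => rfl
        simp only [e]
        ring
      have h2 : d ((g : Gm ι S).val c (Sum.inl 0) * x) = lM d (g : Gm ι S) + 2 * dv d z := by
        rw [h.mul _ _ hc.2 hx0, hc.1, hxd]
      have h3 : d ((g : Gm ι S).val c (Sum.inl 1) * u' +
            ∑ i, (g : Gm ι S).val c (Sum.inr i) * z i) ≤ lM d (g : Gm ι S) + dv d z := by
        apply d_add_le h
        · rw [mul_comm]
          refine (d_cmul h hu0' _).trans ?_
          have := le_lN (d := d) (g : Gm ι S) c (Sum.inl 1)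
          omega
        · refine d_sum_le h _ _ _ fun i _ => ?_
          refine (d_mul_le' h _ _).trans (add_le_add ?_ (le_dv z i))
          exact (le_lN (d := d) (g : Gm ι S) c (Sum.inr i)).trans hle1
      have h4 := h.d_add_lt (a := (g : Gm ι S).val c (Sum.inl 1) * u' +
            ∑ i, (g : Gm ι S).val c (Sum.inr i) * z i) (b := (g : Gm ι S).val c (Sum.inl 0) * x)
            (by omega)
      rw [← h1] at h4
      have h5 := le_lN (d := d) ((g * b : og (Q.map j)) : Gm ι S) c (Sum.inl 1)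
      have h6 : lN d ((g * b : og (Q.map j)) : Gm ι S) ≤ lM d (g : Gm ι S) := hle2
      omega
    have hx0 : d x = 0 := by omega
    apply (mem_Ag h).2
    intro s t
    rcases t with t | k
    · fin_cases t
      · show d ((b : Gm ι S).val s (Sum.inl 0)) = 0
        by_cases hs : s = Sum.inl 0
        · rw [hs, ← hu, hu0]
        · rw [hb'.z s hs, h.d_zero]
      · show d ((b : Gm ι S).val s (Sum.inl 1)) = 0
        rcases s with s | i
        · fin_cases s
          · show d ((b : Gm ι S).val (Sum.inl 0) (Sum.inl 1)) = 0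
            rw [← hx, hx0]
          · show d ((b : Gm ι S).val (Sum.inl 1) (Sum.inl 1)) = 0
            rw [← hu', hu0']
        · have := le_dv (d := d) z i
          rw [hz0, hz] at this
          exact Nat.le_zero.1 this
    · rcases s with s | i
      · fin_cases s
        · show d ((b : Gm ι S).val (Sum.inl 0) (Sum.inr k)) = 0
          have h1 := og_BB b.2 (bs ι S (Sum.inr k)) (bs ι S (Sum.inl 1))
          rw [col_eq, col_eq, BB_f, bs_k0] at h1
          unfold BB at h1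
          have e1 : col (b : Gm ι S) (Sum.inr k) (Sum.inl 1) = 0 := hb'.fk (Q := Q) h b.2 k
          have e2 : col (b : Gm ι S) (Sum.inl 1) (Sum.inl 1) = u' := hu'.symm
          rw [e1, e2, zero_mul, add_zero, ← hz] at h1
          have h2 : col (b : Gm ι S) (Sum.inr k) (Sum.inl 0) * u' =
              - bf (Q.map j) (rt (col (b : Gm ι S) (Sum.inr k))) z := by linear_combination h1
          have h3 : dv d (rt (col (b : Gm ι S) (Sum.inr k))) = 0 :=
            Nat.le_zero.1 (dv_le fun i => (hb'.c i k).le)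
          have h4 := d_bf h Q (rt (col (b : Gm ι S) (Sum.inr k))) z
          rw [h3, hz0] at h4
          have h5 : d (u' * col (b : Gm ι S) (Sum.inr k) (Sum.inl 0)) = 0 := by
            rw [mul_comm, h2, h.d_neg]
            omega
          rw [d_cmul_eq h hu0' hune'] at h5
          exact h5
        · show d ((b : Gm ι S).val (Sum.inl 1) (Sum.inr k)) = 0
          rw [hb'.fk (Q := Q) h b.2 k, h.d_zero]
      · exact hb'.c i k
  · intro a ha
    have h1 : lN d (a : Gm ι S) ≤ 0 := lN_le fun x b => ((mem_Ag h).1 ha x b).le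
    show lN d (a : Gm ι S) ≤ lM d (a : Gm ι S)
    omega

end lev

end Pool.Agent.U919.OQ
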