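import Pool.Agent.U919.OQ.Lev
import Pool.Agent.U919.GE.Sub
import Mathlib

/-!
# Groups of isometries in the class of Farrell-Jones groups
-/

set_option autoImplicit false

namespace Pool.Agent.U919.OQ

open Matrix
open Pool.Agent.Y110.FJ (ClosedE)
open Pool.Agent.Y462.SS (Closed)
open Pool.Agent.U919.GE (DegreeOver Lvl GG crit_sub)

variable {ι : Type} [Fintype ι] [DecidableEq ι]
  {R S : Type} [CommRing R] [CommRing S] {j : R →+* S} {ε : S →+* R} {d : S → ℕ}

theorem ext_col {g h : Gm ι S} (H : ∀ b, col g b = col h b) : g = h := by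
  apply Units.ext
  ext a b
  exact congrFun (H b) a

/-- the group generated by the image of `A` and the Siegel transformations over `S` -/
def genS (j : R →+* S) (Q : Matrix ι ι R) (A : Subgroup (Gm ι R)) : Subgroup (Gm ι S) :=
  A.map (mp j) ⊔ Subgroup.closure (Set.range (sg (Q.map j)))

/-- the group generated by `A` and the Siegel transformations over `R` -/
def addS (Q : Matrix ι ι R) (A : Subgroup (Gm ι R)) : Subgroup (Gm ι R) :=
  A ⊔ Subgroup.closure (Set.range (sg Q))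

variable (h : DegreeOver j ε d) {Q : Matrix ι ι R}

include h

theorem map_map_eq : (Q.map j).map ε = Q := by
  ext a b
  simp only [Matrix.map_apply, h.ret]

theorem mp_mp (g : Gm ι S) (hg : ∀ a b, d (g.val a b) = 0) : mp j (mp ε g) = g := by
  apply Units.ext
  ext a b
  rw [mp_apply, mp_apply]
  obtain ⟨r, hr⟩ := (h.zero_iff _).1 (hg a b)
  rw [← hr, h.ret]

theorem mp_mp' (g : Gm ι R) : mp ε (mp j g) = g := by
  apply Units.ext
  ext a b
  rw [mp_apply, mp_apply, h.ret]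

theorem val_of_one {g : Gm ι S} (hg : mp ε g = 1) {a b : Fin 2 ⊕ ι} (hd : d (g.val a b) = 0) :
    g.val a b = (1 : Matrix (Fin 2 ⊕ ι) (Fin 2 ⊕ ι) S) a b := by
  obtain ⟨r, hr⟩ := (h.zero_iff _).1 hd
  have h1 : (mp ε g).val a b = (1 : Matrix (Fin 2 ⊕ ι) (Fin 2 ⊕ ι) R) a b := by rw [hg]; rfl
  rw [mp_apply, ← hr, h.ret] at h1
  rw [← hr, h1]
  by_cases hab : a = b
  · rw [hab, Matrix.one_apply_eq, Matrix.one_apply_eq, map_one]
  · rw [Matrix.one_apply_ne hab, Matrix.one_apply_ne hab, map_zero]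

/-- the elements of the second group which are trivial over `R` are Siegel transformations -/
theorem isSg {g : Gm ι S} (hb : IsB d g) (hg : g ∈ og (Q.map j)) (h1 : mp ε g = 1) :
    ∃ z, g = sg (Q.map j) z := by
  have hu : g.val (Sum.inl 0) (Sum.inl 0) = 1 := by
    rw [val_of_one h h1 hb.u, Matrix.one_apply_eq]
  have hff := hb.ff (Q := Q) h hg
  rw [hu, one_mul] at hff
  have hrk : ∀ k, rt (col g (Sum.inr k)) = rt (bs ι S (Sum.inr k)) := by
    intro k
    funext i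
    show g.val (Sum.inr i) (Sum.inr k) = (Pi.single (Sum.inr k) 1 : Vc ι S) (Sum.inr i)
    rw [val_of_one h h1 (hb.c i k)]
    by_cases hik : i = k
    · rw [hik, Matrix.one_apply_eq, Pi.single_eq_same]
    · rw [Matrix.one_apply_ne (by simpa using hik), Pi.single_eq_of_ne (by simpa using hik)]
  refine ⟨rt (col g (Sum.inl 1)), ext_col fun b => ?_⟩
  have e0 : col (sg (Q.map j) (rt (col g (Sum.inl 1)))) b =
      sgL (Q.map j) (rt (col g (Sum.inl 1))) (bs ι S b) := by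
    rw [← col_eq, sg_mulVec]
  rw [e0]
  rcases b with b | k
  · fin_cases b
    · show col g (Sum.inl 0) = sgL (Q.map j) (rt (col g (Sum.inl 1))) (bs ι S (Sum.inl 0))
      apply ext_v
      · rw [sgL_0, bs_e0, bs_e1, bs_er, bf_comm, bf_zero]
        show g.val (Sum.inl 0) (Sum.inl 0) = _
        rw [hu]
        ring
      · rw [sgL_1, bs_e1]
        exact hb.z _ (by simp)
      · rw [sgL_r, bs_e1, bs_er, zero_smul, add_zero]
        exact hb.r
    · show col g (Sum.inl 1) = sgL (Q.map j) (rt (col g (Sum.inl 1))) (bs ι S (Sum.inl 1))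
      apply ext_v
      · rw [sgL_0, bs_f0, bs_f1, bs_fr, bf_comm, bf_zero]
        have h2 := hg (bs ι S (Sum.inl 1))
        rw [col_eq, QQ_f] at h2
        unfold QQ at h2
        have e2 : col g (Sum.inl 1) (Sum.inl 1) = 1 := hff
        rw [e2] at h2
        linear_combination h2
      · rw [sgL_1, bs_f1]
        exact hff
      · rw [sgL_r, bs_f1, bs_fr, one_smul, zero_add]
  · apply ext_v
    · rw [sgL_0, bs_k0, bs_k1, ← hrk k]
      have h2 := og_BB hg (bs ι S (Sum.inr k)) (bs ι S (Sum.inl 1))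
      rw [col_eq, col_eq, BB_f, bs_k0] at h2
      unfold BB at h2
      have e1 : col g (Sum.inr k) (Sum.inl 1) = 0 := hb.fk (Q := Q) h hg k
      have e2 : col g (Sum.inl 1) (Sum.inl 1) = 1 := hff
      rw [e1, e2] at h2
      linear_combination h2
    · rw [sgL_1, bs_k1]
      exact hb.fk (Q := Q) h hg k
    · rw [sgL_r, bs_k1, zero_smul, add_zero]
      exact hrk k

omit h in
theorem col_sg (P : Matrix ι ι S) (w : ι → S) (b : Fin 2 ⊕ ι) : col (sg P w) b = sgL P w (bs ι S b) := by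
  rw [← col_eq, sg_mulVec]

/-- the Siegel transformations are in the second group -/
theorem isB_sg (w : ι → S) : IsB d (sg (Q.map j) w) := by
  have hz : ∀ a, (sg (Q.map j) w).val a (Sum.inl 0) = bs ι S (Sum.inl 0) a := by
    intro a
    have h1 := congrFun (col_sg (Q.map j) w (Sum.inl 0)) a
    rw [show (sg (Q.map j) w).val a (Sum.inl 0) = col (sg (Q.map j) w) (Sum.inl 0) a from rfl, h1]
    have h2 : sgL (Q.map j) w (bs ι S (Sum.inl 0)) = bs ι S (Sum.inl 0) := by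
      apply ext_v
      · rw [sgL_0, bs_e0, bs_e1, bs_er, bf_comm, bf_zero]
        ring
      · rw [sgL_1]
      · rw [sgL_r, bs_e1, zero_smul, add_zero]
    rw [h2]
  refine ⟨?_, ?_, ?_⟩
  · intro a ha
    rw [hz]
    exact Pi.single_eq_of_ne ha _
  · rw [hz, bs_e0, h.d_one]
  · intro i k
    have h1 : (sg (Q.map j) w).val (Sum.inr i) (Sum.inr k) = bs ι S (Sum.inr k) (Sum.inr i) := by
      have h2 := congrFun (congrArg rt (col_sg (Q.map j) w (Sum.inr k))) i
      rw [sgL_r, bs_k1, zero_smul, add_zero] at h2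
      exact h2
    rw [h1]
    unfold bs
    by_cases hik : (Sum.inr i : Fin 2 ⊕ ι) = Sum.inr k
    · rw [hik, Pi.single_eq_same, h.d_one]
    · rw [Pi.single_eq_of_ne hik, h.d_zero]

omit h in
theorem genS_le_og (j : R →+* S) (Q : Matrix ι ι R) : genS j Q (og Q) ≤ og (Q.map j) := by
  refine sup_le ?_ ?_
  · rintro _ ⟨g, hg, rfl⟩
    exact mp_og j Q hg
  · rw [Subgroup.closure_le]
    rintro _ ⟨w, rfl⟩
    exact sg_mem _ w

theorem genS_le (hQ : Aniso j d Q) : genS j Q (og Q) ≤ (Ag j Q ⊔ Bg h hQ).map (og (Q.map j)).subtype := by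
  refine sup_le ?_ ?_
  · rintro _ ⟨g, hg, rfl⟩
    refine ⟨⟨mp j g, mp_og j Q hg⟩, Subgroup.mem_sup_left ?_, rfl⟩
    exact Subgroup.mem_subgroupOf.2 ⟨g, hg, rfl⟩
  · rw [Subgroup.closure_le]
    rintro _ ⟨w, rfl⟩
    exact ⟨⟨sg (Q.map j) w, sg_mem _ w⟩, Subgroup.mem_sup_right (isB_sg h w), rfl⟩

variable {C : ∀ (G : Type) [Group G], Prop}

/-- **Main theorem.** -/
theorem main_sub (hC : ClosedE C) (hM : ∀ (G : Type) [Group G], derivedSeries G 2 = ⊥ → C G)
    (hQ : Aniso j d Q) (H : Subgroup (Gm ι S)) (hH : H ≤ genS j Q (og Q))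
    (hI : C ↥(H.map (mp ε))) : C H := by
  have hog : ∀ x ∈ H, x ∈ og (Q.map j) := fun x hx => genS_le_og j Q (hH hx)
  have hin : ∀ (x : Gm ι S) (hx : x ∈ H), (⟨x, hog x hx⟩ : og (Q.map j)) ∈ Ag j Q ⊔ Bg h hQ := by
    intro x hx
    obtain ⟨y, hy, hyx⟩ := genS_le h hQ (hH hx)
    have : y = ⟨x, hog x hx⟩ := Subtype.ext hyx
    rwa [this] at hy
  let φ : H →* GG (Ag j Q) (Bg h hQ) :=
    { toFun := fun x => ⟨⟨x.1, hog x.1 x.2⟩, hin x.1 x.2⟩
      map_one' := rfl
      map_mul' := fun x y => rfl }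
  have hφ : Function.Injective φ := by
    intro x y hxy
    have h1 := congrArg (fun z : GG (Ag j Q) (Bg h hQ) => ((z : og (Q.map j)) : Gm ι S)) hxy
    exact Subtype.ext h1
  let f : GG (Ag j Q) (Bg h hQ) →* Gm ι R :=
    ((mp ε).comp (og (Q.map j)).subtype).comp (Ag j Q ⊔ Bg h hQ).subtype
  let q : H →* ↥(H.map (mp ε)) := (mp ε).subgroupMap H
  refine crit_sub hC hM (lvl h hQ) f ?_ ?_ φ hφ q hI ?_
  · rintro ⟨x, hx⟩ hxA h2
    have h3 : mp ε (x : Gm ι S) = 1 := h2
    have h4 := mp_mp h (x : Gm ι S) ((mem_Ag h).1 hxA)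
    rw [h3, map_one] at h4
    exact Subtype.ext (Subtype.ext h4.symm)
  · rintro ⟨x, hx⟩ ⟨y, hy⟩ hxB hyB h2 h3
    have h2' : mp ε (x : Gm ι S) = 1 := h2
    have h3' : mp ε (y : Gm ι S) = 1 := h3
    obtain ⟨z, hz⟩ := isSg h (Q := Q) hxB x.2 h2'
    obtain ⟨z', hz'⟩ := isSg h (Q := Q) hyB y.2 h3'
    apply Subtype.ext
    apply Subtype.ext
    show (x : Gm ι S) * (y : Gm ι S) = (y : Gm ι S) * (x : Gm ι S)
    rw [hz, hz', sg_add, sg_add, add_comm]
  · intro x hx
    exact congrArg Subtype.val hx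

theorem map_genS (A : Subgroup (Gm ι R)) : (genS j Q A).map (mp ε) ≤ addS Q A := by
  unfold genS addS
  rw [Subgroup.map_sup]
  refine sup_le (le_sup_of_le_left ?_) (le_sup_of_le_right ?_)
  · rintro _ ⟨_, ⟨g, hg, rfl⟩, rfl⟩
    rw [mp_mp' h]
    exact hg
  · rw [MonoidHom.map_closure, Subgroup.closure_le]
    rintro _ ⟨_, ⟨w, rfl⟩, rfl⟩
    rw [mp_sg, map_map_eq h]
    exact Subgroup.subset_closure ⟨_, rfl⟩

omit h in
theorem genS_mono {A A' : Subgroup (Gm ι R)} (hA : A ≤ A') : genS j Q A ≤ genS j Q A' :=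
  sup_le_sup_right (Subgroup.map_mono hA) _

omit h in
theorem map_addS (A : Subgroup (Gm ι R)) : (addS Q A).map (mp j) ≤ genS j Q A := by
  unfold genS addS
  rw [Subgroup.map_sup]
  refine sup_le_sup_left ?_ _
  rw [MonoidHom.map_closure, Subgroup.closure_le]
  rintro _ ⟨_, ⟨w, rfl⟩, rfl⟩
  rw [mp_sg]
  exact Subgroup.subset_closure ⟨_, rfl⟩

theorem gen_iff (hC : ClosedE C) (hM : ∀ (G : Type) [Group G], derivedSeries G 2 = ⊥ → C G)
    (hQ : Aniso j d Q) (A : Subgroup (Gm ι R)) (hA : A ≤ og Q) : C ↥(addS Q A) ↔ C ↥(genS j Q A) := by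
  constructor
  · intro h1
    refine main_sub h hC hM hQ _ (genS_mono hA) ?_
    exact hC.base.of_injective _ _ (Subgroup.inclusion (map_genS h A)) (Subgroup.inclusion_injective _) h1
  · intro h1
    refine hC.base.of_injective _ _ (((mp j).comp (addS Q A).subtype).codRestrict (genS j Q A)
      (fun x => map_addS A ⟨x, x.2, rfl⟩)) ?_ h1
    intro x y hxy
    have h2 : mp j (x : Gm ι R) = mp j y := congrArg Subtype.val hxy
    have h3 := congrArg (mp ε) h2
    rw [mp_mp' h, mp_mp' h] at h3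
    exact Subtype.ext h3

/-- the second group is contained in the generated group -/
theorem Bg_le (hQ : Aniso j d Q) (b : og (Q.map j)) (hb : b ∈ Bg h hQ) :
    (b : Gm ι S) ∈ genS j Q (og Q) := by
  have hb' : IsB d (b : Gm ι S) := hb
  have h0 : mp ε (b : Gm ι S) ∈ og Q := by
    have := mp_og ε (Q.map j) b.2
    rwa [map_map_eq h] at this
  obtain ⟨c, hc⟩ : ∃ c : og (Q.map j), c = ⟨mp j (mp ε (b : Gm ι S)), mp_og j Q h0⟩ := ⟨_, rfl⟩
  have hcv : ∀ s t, (c : Gm ι S).val s t = j (ε ((b : Gm ι S).val s t)) := by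
    intro s t
    rw [hc]
    rfl
  have hcB : c ∈ Bg h hQ := by
    refine ⟨?_, ?_, ?_⟩
    · intro a ha
      rw [hcv, hb'.z a ha, map_zero, map_zero]
    · rw [hcv, h.d_j]
    · intro i k
      rw [hcv, h.d_j]
  have h1 : c⁻¹ * b ∈ Bg h hQ := mul_mem (inv_mem hcB) hb
  have h2 : mp ε ((c⁻¹ * b : og (Q.map j)) : Gm ι S) = 1 := by
    rw [Subgroup.coe_mul, Subgroup.coe_inv, map_mul, map_inv, hc]
    show (mp ε (mp j (mp ε (b : Gm ι S))))⁻¹ * mp ε (b : Gm ι S) = 1
    rw [mp_mp' h, inv_mul_cancel]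
  obtain ⟨z, hz⟩ := isSg h (Q := Q) h1 (c⁻¹ * b).2 h2
  have h3 : (b : Gm ι S) = (c : Gm ι S) * ((c⁻¹ * b : og (Q.map j)) : Gm ι S) := by
    rw [Subgroup.coe_mul, Subgroup.coe_inv, mul_inv_cancel_left]
  rw [h3, hz, hc]
  exact mul_mem (Subgroup.mem_sup_left ⟨_, h0, rfl⟩)
    (Subgroup.mem_sup_right (Subgroup.subset_closure ⟨z, rfl⟩))

end Pool.Agent.U919.OQ
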